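import Pool.Agent.H9.K2.Stmts2
import Pool.Agent.H64.KA.TUB
import Pool.Agent.H20.K2.AOP
import Pool.Agent.H68.K2.AP2

/-!
# Maximal families: the fans are active (entropy form, without the restriction to small `q`)
-/

set_option autoImplicit false

namespace Pool.K3

open Finset Real
open Pool.Agent.H49.Ent Pool.Agent.H32.Dense Pool.STK Pool.KA

/-- **Activity.** -/
theorem act_thm (m : ℕ) (a R : ℝ) (ha : 1 ≤ a) (hU : UBa m a R) {η x₀ : ℝ}
    (hη : 0 < η) (hx₀ : 0 < x₀) :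
    ∃ τ > 0, ∃ J₁ : ℕ, ∀ J ≥ J₁, ∀ F : Fam m J, F.Mx a R τ → ∀ q : ℕ, q ≤ J →
      (q : ℝ) ≤ (1 - x₀) * J →
      R / a * q - η * J ≤ CH F.p (F.D q) (fun ω => (F.X J ω, F.W ω)) := by
  obtain ⟨C, hC, h2⟩ := ap2_thm aop_thm m
  obtain ⟨C', hC', htub⟩ := tub_thm m
  have ha0 : 0 < a := by linarith
  obtain ⟨η', hη'⟩ : ∃ η', η' = η / 16 := ⟨_, rfl⟩
  have hη'0 : 0 < η' := by rw [hη']; positivity
  obtain ⟨θ, hθ, J₀, hUB⟩ := hU η' hη'0
  obtain ⟨τ, hτ⟩ : ∃ τ, τ = min η' (θ * x₀) := ⟨_, rfl⟩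
  have hτ0 : 0 < τ := by rw [hτ]; positivity
  obtain ⟨J₁, hJ₁⟩ := exists_nat_gt (J₀ / x₀ + 16 * C / η)
  refine ⟨τ, hτ0, J₁, fun J hJ F hF q hq hqx => ?_⟩
  have hJr : J₀ / x₀ + 16 * C / η < J := hJ₁.trans_le (by exact_mod_cast hJ)
  have t1 : 0 ≤ J₀ / x₀ := by positivity
  have t2 : 0 ≤ 16 * C / η := by positivity
  have hJ0 : (0 : ℝ) < J := by linarith
  have k1 : (J₀ : ℝ) < J * x₀ := by
    have : J₀ / x₀ < J := by linarith
    rwa [div_lt_iff₀ hx₀] at this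
  have k2 : 16 * C < J * η := by
    have : 16 * C / η < J := by linarith
    rwa [div_lt_iff₀ hη] at this
  have k3 : x₀ * J ≤ ((J - q : ℕ) : ℝ) := by
    rw [Nat.cast_sub hq]
    linarith
  have hTm : F.Tm (τ * J) := hF.1
  have hGa := hF.2
  have h3 := (htub J F q hq (τ * J) hTm).1
  have h4 : (F.tub q hq).Tm (θ * ((J - q : ℕ) : ℝ)) := by
    have : τ * J ≤ θ * ((J - q : ℕ) : ℝ) := by
      have e1 : τ * J ≤ θ * x₀ * J := by
        refine mul_le_mul_of_nonneg_right ?_ hJ0.le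
        rw [hτ]; exact min_le_right _ _
      have e2 : θ * (x₀ * J) ≤ θ * ((J - q : ℕ) : ℝ) := mul_le_mul_of_nonneg_left k3 hθ.le
      linarith
    unfold Fam.Tm at h3 ⊢
    linarith
  have h5 := hUB (J - q) (by
    have : (J₀ : ℝ) ≤ ((J - q : ℕ) : ℝ) := by linarith
    exact_mod_cast this) (F.tub q hq) h4
  have hτη : τ ≤ η' := by rw [hτ]; exact min_le_left _ _
  have h6 : (R - η') * J ≤ F.Ga a := by
    refine le_trans ?_ hGa
    exact mul_le_mul_of_nonneg_right (by linarith) hJ0.le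
  have h7 : (F.tub q hq).Ga a ≤ (R + η') * ((J : ℝ) - q) := by
    rw [Nat.cast_sub hq] at h5
    exact h5
  have h8 := h2 J q hq F a R η' (τ * J) ha hη'0.le hTm h6 h7
  have h9 : 0 ≤ CH F.p (F.L q) F.Z := CH_nonneg F.isLaw.nonneg _ _
  have h10 : 0 ≤ CH F.p (F.L q) (fun ω => (F.D J ω, F.Z ω)) := CH_nonneg F.isLaw.nonneg _ _
  have h11 : 0 ≤ (a - 1) * CH F.p (F.L q) F.Z := mul_nonneg (by linarith) h9
  have h12 : R * q ≤ a * CH F.p (F.D q) (fun ω => (F.X J ω, F.W ω)) + 2 * η' * J +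
      2 * a * (τ * J + C) := by linarith
  have h13 : R * q - 2 * η' * J - 2 * a * (τ * J + C) ≤
      a * CH F.p (F.D q) (fun ω => (F.X J ω, F.W ω)) := by linarith
  have h14 : a * (R / a * q - η * J) ≤ a * CH F.p (F.D q) (fun ω => (F.X J ω, F.W ω)) := by
    refine le_trans ?_ h13
    have e1 : a * (R / a * q - η * J) = R * q - a * (η * J) := by
      field_simp
    rw [e1]
    have e2 : τ * J ≤ η' * J := mul_le_mul_of_nonneg_right hτη hJ0.le
    have e3 : 2 * a * (τ * J + C) ≤ 2 * a * (η' * J + η' * J) := by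
      refine mul_le_mul_of_nonneg_left ?_ (by positivity)
      have : C ≤ η' * J := by rw [hη']; linarith
      linarith
    have e4 : 2 * η' * J ≤ a * (2 * η' * J) := by
      have : 0 ≤ 2 * η' * J := by positivity
      nlinarith
    have e5 : a * (η * J) = 16 * (a * (η' * J)) := by rw [hη']; ring
    have e6 : 0 ≤ a * (η' * J) := by positivity
    rw [e5]
    have e7 : 2 * a * (η' * J + η' * J) = 4 * (a * (η' * J)) := by ring
    have e8 : a * (2 * η' * J) = 2 * (a * (η' * J)) := by ring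
    linarith
  exact le_of_mul_le_mul_left h14 ha0

end Pool.K3
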