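import Pool.Agent.H20.K2.CPY
import Pool.Agent.H7.KSAT.SL
import Pool.Agent.H77.S6.Mac2

/-!
# Labels whose boxes contain the line on a window: Lemma A at the level of families

`z` is a label of a sample; the position and the velocity of the sample lie in a box attached to
the label (in lower triangular coordinates). Two samples of one line in a window: the entropy of
the label of the first one given the position of the second one is at most the deficit of fullness
of the position in the box, up to the change of size of the window.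
-/

set_option autoImplicit false

namespace Pool.K3

open Finset Real
open Pool.Agent.H49.Ent Pool.Agent.H32.Dense Pool.STK Pool.KA Pool.KSAT Pool.KS6

/-! ### Chain of bounds for the coordinates of a vector -/

section Chain

variable {Ω S T : Type} [Fintype Ω]

/-- The first `r` coordinates. -/
def pre {n : ℕ} (Y : Ω → Fin n → S) (r : ℕ) (ω : Ω) (j : Fin n) : Option S :=
  if (j : ℕ) < r then some (Y ω j) else none

omit [Fintype Ω] in
theorem pre_eq {n : ℕ} {Y : Ω → Fin n → S} {r : ℕ} {ω ω' : Ω} (h : pre Y r ω = pre Y r ω')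
    {j : Fin n} (hj : (j : ℕ) < r) : Y ω j = Y ω' j := by
  have h1 := congrFun h j
  unfold pre at h1
  rw [if_pos hj, if_pos hj] at h1
  exact Option.some.inj h1

theorem CH_pre {p : Ω → ℝ} (hp : ∀ ω, 0 ≤ p ω) {n : ℕ} (Y : Ω → Fin n → S) (Q : Ω → T)
    (L : Fin n → ℝ) (h : ∀ i : Fin n, CH p (fun ω => Y ω i) (fun ω => (pre Y i ω, Q ω)) ≤ L i) :
    CH p Y Q ≤ ∑ i, L i := by
  classical
  have key : ∀ r ≤ n, CH p (pre Y r) Q ≤ ∑ i : Fin n, if (i : ℕ) < r then L i else 0 := by
    intro r
    induction r with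
    | zero =>
      intro _
      rw [CH_eq_zero hp (fun ω ω' _ _ _ => by
        funext j
        simp [pre])]
      simp
    | succ r ih =>
      intro hr
      have hrn : r < n := by omega
      have h1 := CH_le_add hp (pre Y (r + 1)) (pre Y r) Q
      have h2 := ih (by omega)
      have h3 : CH p (pre Y (r + 1)) (fun ω => (pre Y r ω, Q ω)) ≤
          CH p (fun ω => Y ω ⟨r, hrn⟩) (fun ω => (pre Y r ω, Q ω)) := by
        have e1 := CH_le_add hp (pre Y (r + 1)) (fun ω => Y ω ⟨r, hrn⟩)
          (fun ω => (pre Y r ω, Q ω))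
        have e2 : CH p (pre Y (r + 1)) (fun ω => (Y ω ⟨r, hrn⟩, (pre Y r ω, Q ω))) = 0 := by
          refine CH_eq_zero hp fun ω ω' _ _ e => ?_
          obtain ⟨f1, f2⟩ := Prod.ext_iff.mp e
          have f3 := (Prod.ext_iff.mp f2).1
          funext j
          unfold pre
          by_cases hj : (j : ℕ) < r
          · rw [if_pos (by omega), if_pos (by omega)]
            exact congrArg some (pre_eq f3 hj)
          · by_cases hj' : (j : ℕ) = r
            · rw [if_pos (by omega), if_pos (by omega)]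
              have : j = ⟨r, hrn⟩ := Fin.ext hj'
              rw [this]
              exact congrArg some f1
            · rw [if_neg (by omega), if_neg (by omega)]
        linarith
      have h4 := h ⟨r, hrn⟩
      have h5 : ∑ i : Fin n, (if (i : ℕ) < r + 1 then L i else 0) =
          (∑ i : Fin n, if (i : ℕ) < r then L i else 0) + L ⟨r, hrn⟩ := by
        have e1 : ∀ i : Fin n, (if (i : ℕ) < r + 1 then L i else 0) =
            (if (i : ℕ) < r then L i else 0) + (if i = ⟨r, hrn⟩ then L i else 0) := by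
          intro i
          by_cases hi : (i : ℕ) < r
          · rw [if_pos (by omega), if_pos hi, if_neg (by
              intro h; rw [h] at hi; simp at hi), add_zero]
          · by_cases hi' : i = ⟨r, hrn⟩
            · rw [if_pos (by rw [hi']; simp), if_neg hi, if_pos hi', zero_add]
            · have : (i : ℕ) ≠ r := fun h => hi' (Fin.ext h)
              rw [if_neg (by omega), if_neg hi, if_neg hi', add_zero]
        rw [Finset.sum_congr rfl fun i _ => e1 i, Finset.sum_add_distrib]
        simp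
      rw [h5]
      linarith
  have h1 := key n le_rfl
  have h2 : CH p Y Q ≤ CH p (pre Y n) Q := by
    refine CH_mono_left hp fun ω ω' _ _ e => ?_
    obtain ⟨f1, f2⟩ := Prod.ext_iff.mp e
    funext j
    exact pre_eq f1 j.2
  refine h2.trans (h1.trans (le_of_eq ?_))
  exact Finset.sum_congr rfl fun i _ => if_pos i.2

end Chain

/-! ### Boxes -/

section Box

variable {m J : ℕ}

/-- The position and the velocity of the samples lie in boxes given by the label: the coordinates
are ordered by `σ`, they are lower triangular, `k i` is the precision of the `i`-th coordinate of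
the position, `k i - w` that of the velocity. -/
def BoxL {Ω S : Type} (x d : Ω → Fin m → ℝ) (A : Ω → Prop) (z : Ω → S)
    (σ : Fin m → Fin m) (k : Fin m → ℕ) (w : ℕ) (c : ℝ) : Prop :=
  ∃ (M : S → Fin m → Fin m → ℝ) (xb db : S → Fin m → ℝ), (∀ s i j, |M s i j| ≤ c) ∧
    ∀ ω, A ω → ∀ i,
      |(x ω (σ i) - xb (z ω) i) +
        ∑ j, (if j < i then M (z ω) i j * (x ω (σ j) - xb (z ω) j) else 0)| ≤ c / 2 ^ k i ∧
      |(d ω (σ i) - db (z ω) i) +
        ∑ j, (if j < i then M (z ω) i j * (d ω (σ j) - db (z ω) j) else 0)| ≤ c * 2 ^ w / 2 ^ k i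

/-- The full entropy of a box at resolution `J`. -/
noncomputable def full (J : ℕ) (k : Fin m → ℕ) : ℝ := ∑ i, ((J : ℝ) - k i) * Real.log 2

end Box

section Count

variable {Ω T : Type} [Fintype Ω]

/-- The number of positions in a box. -/
theorem CH_box {m : ℕ} {p : Ω → ℝ} (hp : IsLaw p) (J : ℕ) (x : Ω → Fin m → ℝ)
    (σ : Fin m → Fin m) (hσ : Function.Surjective σ) (Q : Ω → T) (M : Ω → Fin m → Fin m → ℝ)
    (xb : Ω → Fin m → ℝ) (k : Fin m → ℕ) (y : ℕ) (c c' : ℝ) (hk : ∀ i, k i ≤ J)
    (hc : 1 ≤ c) (hc' : 1 ≤ c')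
    (hM : Det p Q M) (hxb : Det p Q xb) (hMc : ∀ ω i j, |M ω i j| ≤ c)
    (hx : ∀ ω, 0 < p ω → ∀ i, |(x ω (σ i) - xb ω i) +
        ∑ j, (if j < i then M ω i j * (x ω (σ j) - xb ω j) else 0)| ≤ c' * 2 ^ y / 2 ^ k i) :
    CH p (fun ω => fl J (x ω)) Q ≤ full J k + m * (y * Real.log 2) +
      m * Real.log (2 * (2 * c' + m * c + 1) + 1) := by
  classical
  have hp0 := hp.nonneg
  set Y : Ω → Fin m → ℤ := fun ω i => fl J (x ω) (σ i) with hY
  have h1 : CH p (fun ω => fl J (x ω)) Q ≤ CH p Y Q := by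
    refine CH_mono_left hp0 fun ω ω' _ _ e => ?_
    have f1 := (Prod.ext_iff.mp e).1
    funext j
    obtain ⟨i, rfl⟩ := hσ j
    exact congrFun f1 i
  refine h1.trans ?_
  have h2 := CH_pre hp0 Y Q (fun i => ((J : ℝ) - k i) * Real.log 2 + y * Real.log 2 +
    Real.log (2 * (2 * c' + m * c + 1) + 1)) (by
    intro i
    have h3 := CH_le_int hp0 hp.sum_one (fun ω => Y ω i) (fun ω => (pre Y i ω, Q ω))
      (fun _ => 2 * c' * (2 ^ J * 2 ^ y / 2 ^ k i) + m * c + 1) (by
        intro ω ω' hω hω' e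
        obtain ⟨f1, f2⟩ := Prod.ext_iff.mp e
        have f3 := hM ω ω' hω hω' f2
        have f4 := hxb ω ω' hω hω' f2
        have g1 := hx ω hω i
        have g2 := hx ω' hω' i
        rw [f3, f4] at g1
        have hJ : (0 : ℝ) < 2 ^ J := by positivity
        -- the difference of the coordinates
        have g3 : |x ω (σ i) - x ω' (σ i)| ≤ 2 * (c' * 2 ^ y / 2 ^ k i) + m * (c / 2 ^ J) := by
          have e1 : x ω (σ i) - x ω' (σ i) =
              ((x ω (σ i) - xb ω' i) + ∑ j, (if j < i then M ω' i j * (x ω (σ j) - xb ω' j)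
                else 0)) -
              ((x ω' (σ i) - xb ω' i) + ∑ j, (if j < i then M ω' i j * (x ω' (σ j) - xb ω' j)
                else 0)) -
              ∑ j, (if j < i then M ω' i j * (x ω (σ j) - x ω' (σ j)) else 0) := by
            have : ∑ j, (if j < i then M ω' i j * (x ω (σ j) - x ω' (σ j)) else 0) =
                ∑ j, (if j < i then M ω' i j * (x ω (σ j) - xb ω' j) else 0) -
                ∑ j, (if j < i then M ω' i j * (x ω' (σ j) - xb ω' j) else 0) := by
              rw [← Finset.sum_sub_distrib]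
              refine Finset.sum_congr rfl fun j _ => ?_
              split_ifs
              · ring
              · ring
            rw [this]
            ring
          have e2 : |∑ j, (if j < i then M ω' i j * (x ω (σ j) - x ω' (σ j)) else 0)| ≤
              m * (c / 2 ^ J) := by
            refine (Finset.abs_sum_le_sum_abs _ _).trans ?_
            have e3 : ∀ j ∈ Finset.univ, |(if j < i then M ω' i j * (x ω (σ j) - x ω' (σ j))
                else 0)| ≤ c / 2 ^ J := by
              intro j _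
              split_ifs with hj
              · have e4 : Y ω j = Y ω' j := pre_eq f1 hj
                have e5 : |(2 : ℝ) ^ J * x ω (σ j) - 2 ^ J * x ω' (σ j)| < 1 :=
                  Int.abs_sub_lt_one_of_floor_eq_floor e4
                rw [← mul_sub, abs_mul, abs_of_pos hJ] at e5
                have e6 : |x ω (σ j) - x ω' (σ j)| ≤ 1 / 2 ^ J := by
                  rw [le_div_iff₀ hJ, mul_comm]
                  exact e5.le
                rw [abs_mul]
                calc |M ω' i j| * |x ω (σ j) - x ω' (σ j)| ≤ c * (1 / 2 ^ J) :=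
                      mul_le_mul (hMc ω' i j) e6 (abs_nonneg _) (by linarith)
                  _ = c / 2 ^ J := by ring
              · rw [abs_zero]
                positivity
            refine (Finset.sum_le_sum e3).trans (le_of_eq ?_)
            simp
          rw [e1]
          refine (abs_sub _ _).trans ?_
          have e4 := (abs_sub ((x ω (σ i) - xb ω' i) + ∑ j, (if j < i then M ω' i j *
            (x ω (σ j) - xb ω' j) else 0)) ((x ω' (σ i) - xb ω' i) + ∑ j, (if j < i then
            M ω' i j * (x ω' (σ j) - xb ω' j) else 0)))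
          linarith
        have f5 := Int.floor_le ((2 : ℝ) ^ J * x ω (σ i))
        have f6 := Int.lt_floor_add_one ((2 : ℝ) ^ J * x ω (σ i))
        have f7 := Int.floor_le ((2 : ℝ) ^ J * x ω' (σ i))
        have f8 := Int.lt_floor_add_one ((2 : ℝ) ^ J * x ω' (σ i))
        have f9 : (2 : ℝ) ^ J * |x ω (σ i) - x ω' (σ i)| ≤
            2 * c' * (2 ^ J * 2 ^ y / 2 ^ k i) + m * c := by
          refine (mul_le_mul_of_nonneg_left g3 hJ.le).trans (le_of_eq ?_)
          field_simp
        have f10 : |(2 : ℝ) ^ J * x ω (σ i) - 2 ^ J * x ω' (σ i)| ≤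
            2 * c' * (2 ^ J * 2 ^ y / 2 ^ k i) + m * c := by
          rw [← mul_sub, abs_mul, abs_of_pos hJ]
          exact f9
        change |((⌊(2 : ℝ) ^ J * x ω (σ i)⌋ - ⌊(2 : ℝ) ^ J * x ω' (σ i)⌋ : ℤ) : ℝ)| ≤ _
        push_cast
        rw [abs_le] at f10 ⊢
        constructor <;> linarith [f10.1, f10.2])
    rw [Ex_const hp.sum_one] at h3
    refine h3.trans ?_
    have e1 : (2 : ℝ) ^ J * 2 ^ y / 2 ^ k i = 2 ^ (J - k i + y) := by
      rw [pow_add, ← Nat.sub_add_cancel (hk i), pow_add]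
      field_simp
      rw [Nat.add_sub_cancel]
    rw [e1]
    have e2 : (1 : ℝ) ≤ 2 ^ (J - k i + y) := one_le_pow₀ (by norm_num)
    have hmc : (0 : ℝ) ≤ m * c := by positivity
    have e3 : 2 * (2 * c' * 2 ^ (J - k i + y) + m * c + 1) + 1 ≤
        2 ^ (J - k i + y) * (2 * (2 * c' + m * c + 1) + 1) := by
      nlinarith
    have e4 := Real.log_le_log (by positivity) e3
    rw [Real.log_mul (by positivity) (by positivity), Real.log_pow] at e4
    refine e4.trans (le_of_eq ?_)
    push_cast [Nat.cast_sub (hk i)]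
    ring)
  refine h2.trans (le_of_eq ?_)
  rw [Finset.sum_add_distrib, Finset.sum_add_distrib]
  unfold full
  simp

end Count

/-! ### Two samples of one line in a window -/

section Pairs

variable {m J : ℕ}

/-- The law of two samples of one line (with its side information) in a window of length
`2 ^ (-w)`. -/
noncomputable def prs (F : Fam m J) (w : ℕ) : F.Ω × F.Ω → ℝ := cpy F.p (slam F w)

theorem prs_law (F : Fam m J) (w : ℕ) : IsLaw (prs F w) :=
  (cpy_thm F.Ω _ F.p F.isLaw (slam F w)).1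

theorem prs_fst (F : Fam m J) (w : ℕ) : Marg (prs F w) F.p Prod.fst :=
  (cpy_thm F.Ω _ F.p F.isLaw (slam F w)).2.1

theorem prs_snd (F : Fam m J) (w : ℕ) : Marg (prs F w) F.p Prod.snd :=
  (cpy_thm F.Ω _ F.p F.isLaw (slam F w)).2.2.1

theorem prs_swap (F : Fam m J) (w : ℕ) : Marg (prs F w) (prs F w) Prod.swap := by
  classical
  have h := (cpy_thm F.Ω _ F.p F.isLaw (slam F w)).2.2.2.1
  intro v
  rw [Finset.sum_eq_single v.swap]
  · rw [if_pos (Prod.swap_swap v)]
    exact h v
  · intro v' _ hv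
    rw [if_neg]
    intro h
    exact hv (by rw [← h, Prod.swap_swap])
  · intro h
    exact absurd (Finset.mem_univ _) h

theorem prs_pos {F : Fam m J} {w : ℕ} {v : F.Ω × F.Ω} (hv : 0 < prs F w v) :
    0 < F.p v.1 ∧ 0 < F.p v.2 ∧ F.u v.1 = F.u v.2 ∧ F.d v.1 = F.d v.2 ∧ F.Z v.1 = F.Z v.2 ∧
      F.T1 w v.1 = F.T1 w v.2 := by
  obtain ⟨h1, h2, h3⟩ := (cpy_thm F.Ω _ F.p F.isLaw (slam F w)).2.2.2.2.1 v hv
  simp only [slam, Prod.mk.injEq, Fam.l] at h3
  exact ⟨h1, h2, h3.1.1, h3.1.2, h3.2.1, h3.2.2⟩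

/-- Times of one window. -/
theorem T1_near (F : Fam m J) {w : ℕ} {ω ω' : F.Ω} (h : F.T1 w ω = F.T1 w ω') :
    |(F.T ω : ℝ) - F.T ω'| ≤ 2 ^ (J - w) := by
  unfold Fam.T1 at h
  have h1 := Nat.div_add_mod (F.T ω) (2 ^ (J - w))
  have h2 := Nat.div_add_mod (F.T ω') (2 ^ (J - w))
  have h3 := Nat.mod_lt (F.T ω) (show 0 < 2 ^ (J - w) by positivity)
  have h4 := Nat.mod_lt (F.T ω') (show 0 < 2 ^ (J - w) by positivity)
  rw [h] at h1
  have e1 : (F.T ω : ℝ) = 2 ^ (J - w) * (F.T ω' / 2 ^ (J - w) : ℕ) + (F.T ω % 2 ^ (J - w) : ℕ) := by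
    exact_mod_cast h1.symm
  have e2 : (F.T ω' : ℝ) = 2 ^ (J - w) * (F.T ω' / 2 ^ (J - w) : ℕ) +
      (F.T ω' % 2 ^ (J - w) : ℕ) := by
    exact_mod_cast h2.symm
  have e3 : ((F.T ω % 2 ^ (J - w) : ℕ) : ℝ) < 2 ^ (J - w) := by exact_mod_cast h3
  have e4 : ((F.T ω' % 2 ^ (J - w) : ℕ) : ℝ) < 2 ^ (J - w) := by exact_mod_cast h4
  have e5 : (0 : ℝ) ≤ ((F.T ω % 2 ^ (J - w) : ℕ) : ℝ) := by positivity
  have e6 : (0 : ℝ) ≤ ((F.T ω' % 2 ^ (J - w) : ℕ) : ℝ) := by positivity
  rw [abs_le]
  constructor <;> linarith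

/-- The time of the second sample costs only the deficit of the times. -/
theorem prs_time (F : Fam m J) {w : ℕ} (hw : w ≤ J) {e : ℝ} (he : F.Tm e) {S U : Type}
    (Y : F.Ω → S) (V : F.Ω → U) (hV : Det F.p V (F.T1 w)) :
    CH F.p Y V - (e + Real.log 5) ≤
      CH (prs F w) (fun v => Y v.1) (fun v => (F.T v.2, V v.1)) := by
  classical
  obtain ⟨hQ, hf, hs, -, hpos, hind⟩ := cpy_thm F.Ω _ F.p F.isLaw (slam F w)
  have hQ' : IsLaw (prs F w) := hQ
  have h0 := hQ'.nonneg
  have e1 := hf.CH Y V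
  -- the time of the second sample, given everything about the first one
  have e2 : CH F.p F.T (slam F w) ≤ CH (prs F w) (fun v => F.T v.2) (fun v => (Y v.1, V v.1)) := by
    have h1 := hind ℕ F.Ω F.T id
    have h2 := (prs_swap F w).CH (fun v => F.T v.1) (fun v => (v.2, slam F w v.1))
    have h3 : CH (prs F w) (fun v => F.T v.1) (fun v => (id v.2, slam F w v.1)) =
        CH F.p F.T (slam F w) := h1
    have h4 : CH (prs F w) (fun v => F.T v.swap.1) (fun v => (v.swap.2, slam F w v.swap.1)) ≤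
        CH (prs F w) (fun v => F.T v.2) (fun v => (Y v.1, V v.1)) := by
      refine CH_mono_cond h0 fun v v' _ _ h => ?_
      have e3 : v.1 = v'.1 := (Prod.ext_iff.mp h).1
      simp only [e3]
    have h5 : CH (prs F w) (fun v => F.T v.1) (fun v => (v.2, slam F w v.1)) =
        CH F.p F.T (slam F w) := h3
    linarith
  have e3 := time_digits F (w := w) (K := J - w) (by omega) he
  have e4 : CH F.p (fun ω => (F.T1 (w + (J - w)) ω : ℤ)) (slam F w) ≤ CH F.p F.T (slam F w) := by
    refine CH_mono_left F.isLaw.nonneg fun ω ω' _ _ h => ?_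
    have h1 : F.T ω = F.T ω' := (Prod.ext_iff.mp h).1
    unfold Fam.T1
    rw [h1]
  have e5 : CH (prs F w) (fun v => F.T v.2) (fun v => V v.1) ≤
      ((J - w : ℕ) : ℝ) * Real.log 2 + Real.log 5 := by
    have h1 := CH_le_int h0 hQ'.sum_one (fun v => (F.T v.2 : ℤ)) (fun v => V v.1)
      (fun _ => 2 * 2 ^ (J - w)) (by
        intro v v' hv hv' h
        obtain ⟨a1, a2, -, -, -, a3⟩ := prs_pos hv
        obtain ⟨b1, b2, -, -, -, b3⟩ := prs_pos hv'
        have c1 : F.T1 w v.1 = F.T1 w v'.1 := hV _ _ a1 b1 h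
        have c2 := T1_near F (a3.symm.trans (c1.trans b3))
        push_cast
        have : (0 : ℝ) < 2 ^ (J - w) := by positivity
        linarith)
    rw [Ex_const hQ'.sum_one] at h1
    have h2 : CH (prs F w) (fun v => F.T v.2) (fun v => V v.1) =
        CH (prs F w) (fun v => (F.T v.2 : ℤ)) (fun v => V v.1) := by
      refine CH_congr h0 ?_ ?_ (fun _ _ _ _ h => h) (fun _ _ _ _ h => h)
      · intro v v' _ _ h
        have := (Prod.ext_iff.mp h).1
        simp only at this ⊢
        rw [this]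
      · intro v v' _ _ h
        have := (Prod.ext_iff.mp h).1
        simp only at this ⊢
        exact_mod_cast this
    rw [h2]
    refine h1.trans ?_
    have h3 : (2 : ℝ) * (2 * 2 ^ (J - w)) + 1 ≤ 2 ^ (J - w) * 5 := by
      have : (1 : ℝ) ≤ 2 ^ (J - w) := one_le_pow₀ (by norm_num)
      linarith
    have h4 := Real.log_le_log (by positivity) h3
    rw [Real.log_mul (by positivity) (by norm_num), Real.log_pow] at h4
    exact h4
  -- symmetry of the information
  have e6 := CH_chain h0 (fun v : F.Ω × F.Ω => Y v.1) (fun v => F.T v.2) (fun v => V v.1)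
  have e7 := CH_chain h0 (fun v : F.Ω × F.Ω => F.T v.2) (fun v => Y v.1) (fun v => V v.1)
  have e8 : CH (prs F w) (fun v : F.Ω × F.Ω => (Y v.1, F.T v.2)) (fun v => V v.1) =
      CH (prs F w) (fun v : F.Ω × F.Ω => (F.T v.2, Y v.1)) (fun v => V v.1) := by
    refine CH_congr h0 ?_ ?_ (fun _ _ _ _ h => h) (fun _ _ _ _ h => h)
    · intro v v' _ _ h
      simp only [Prod.mk.injEq] at h ⊢
      tauto
    · intro v v' _ _ h
      simp only [Prod.mk.injEq] at h ⊢
      tauto
  have e9 : CH (prs F w) (fun v => Y v.1) (fun v => V v.1) = CH F.p Y V := e1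
  linarith

/-- **Lemma A.** The position is taken at resolution `P`. -/
theorem boxA (m : ℕ) : ∀ c : ℝ, 1 ≤ c → ∃ C : ℝ, 0 ≤ C ∧ ∀ (J P : ℕ) (F : Fam m J) (w y : ℕ)
    (σ : Fin m → Fin m) (S : Type) (z : F.Ω → S) (k : Fin m → ℕ) (e s : ℝ),
    Function.Surjective σ → y ≤ w → w ≤ J → (∀ i, k i ≤ P) → F.Tm e →
    CH F.p z (fun ω => (F.X P ω, F.W ω)) ≤ s → BoxL F.x F.d (fun ω => 0 < F.p ω) z σ k w c →
    CH (prs F (w - y)) (fun v => z v.1) (fun v => ((F.X P v.2, F.W v.2), F.T v.1)) ≤
      full P k - CH F.p (F.X P) (fun ω => (z ω, F.W ω)) + m * (y * Real.log 2) + C + e + s := by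
  intro c hc
  refine ⟨|m * Real.log (2 * (2 * (2 * c) + m * c + 1) + 1)| + Real.log 5,
    add_nonneg (abs_nonneg _) (Real.log_nonneg (by norm_num)), ?_⟩
  intro J P F w y σ S z k e s hσ hyw hwJ hk he hv hbox
  obtain ⟨M, xb, db, hMc, hbox⟩ := hbox
  set Q := prs F (w - y) with hQdef
  have hQ : IsLaw Q := prs_law F (w - y)
  have h0 := hQ.nonneg
  have hp := F.isLaw
  set V : F.Ω × F.Ω → ℕ × ℕ × F.ζ := fun v => (F.T v.1, F.T v.2, F.Z v.1) with hV
  have hx : CH Q (fun v => F.X P v.2) V = CH Q (fun v => F.X P v.1) V := by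
    have h1 := (prs_swap F (w - y)).CH (fun v => F.X P v.1) V
    rw [← hQdef] at h1
    rw [← h1]
    refine CH_congr h0 (fun _ _ _ _ h => (Prod.ext_iff.mp h).1)
      (fun _ _ _ _ h => (Prod.ext_iff.mp h).1) ?_ ?_
    · intro v v' hv hv' h
      obtain ⟨-, -, -, -, a3, -⟩ := prs_pos hv
      obtain ⟨-, -, -, -, b3, -⟩ := prs_pos hv'
      simp only [hV, Prod.mk.injEq, Prod.fst_swap, Prod.snd_swap] at h ⊢
      exact ⟨h.2.1, h.1, a3.symm.trans (h.2.2.trans b3)⟩
    · intro v v' hv hv' h
      obtain ⟨-, -, -, -, a3, -⟩ := prs_pos hv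
      obtain ⟨-, -, -, -, b3, -⟩ := prs_pos hv'
      simp only [hV, Prod.mk.injEq, Prod.fst_swap, Prod.snd_swap] at h ⊢
      exact ⟨h.2.1, h.1, a3.trans (h.2.2.trans b3.symm)⟩
  have hla := la h0 (fun v : F.Ω × F.Ω => F.X P v.1) (fun v => F.X P v.2) (fun v => z v.1) V hx
  -- the label is visible
  have a1 : CH Q (fun v => z v.1) (fun v => (F.X P v.1, V v)) ≤ s := by
    refine le_trans ?_ hv
    rw [← (prs_fst F (w - y)).CH z (fun ω => (F.X P ω, F.W ω))]
    refine CH_mono_cond h0 fun v v' _ _ h => ?_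
    simp only [hV, Prod.mk.injEq, Fam.W] at h ⊢
    tauto
  -- the position of the first sample
  have a2 : CH F.p (F.X P) (fun ω => (z ω, F.W ω)) - (e + Real.log 5) ≤
      CH Q (fun v => F.X P v.1) (fun v => (z v.1, V v)) := by
    have h1 := prs_time F (w := w - y) (by omega) he (F.X P) (fun ω => (z ω, F.W ω))
      (fun ω ω' _ _ h => by
        have h2 : F.T ω = F.T ω' := (Prod.ext_iff.mp (Prod.ext_iff.mp h).2).1
        unfold Fam.T1
        rw [h2])
    refine h1.trans ?_
    refine CH_mono_cond h0 fun v v' _ _ h => ?_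
    simp only [hV, Prod.mk.injEq, Fam.W] at h ⊢
    tauto
  -- the position of the second sample
  have a3 : CH Q (fun v => F.X P v.2) (fun v => (z v.1, V v)) ≤ full P k + m * (y * Real.log 2) +
      m * Real.log (2 * (2 * (2 * c) + m * c + 1) + 1) := by
    refine CH_box hQ P (fun v => F.x v.2) σ hσ (fun v => (z v.1, V v)) (fun v => M (z v.1))
      (fun v i => xb (z v.1) i + (F.t v.2 - F.t v.1) * db (z v.1) i) k y c (2 * c) hk hc
      (by linarith) ?_ ?_ (fun v i j => hMc _ i j) ?_
    · intro v v' _ _ h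
      have h1 : z v.1 = z v'.1 := (Prod.ext_iff.mp h).1
      simp only [h1]
    · intro v v' _ _ h
      simp only [hV, Prod.mk.injEq] at h
      unfold Fam.t
      dsimp only
      rw [h.1, h.2.1, h.2.2.1]
    · intro v hv i
      obtain ⟨b1, b2, b3, b4, b5, b6⟩ := prs_pos hv
      obtain ⟨g1, g2⟩ := hbox v.1 b1 i
      have hτ : |F.t v.2 - F.t v.1| ≤ 1 / 2 ^ (w - y) := by
        have h1 := T1_near F (w := w - y) b6.symm
        unfold Fam.t
        rw [← sub_div, abs_div, abs_of_pos (show (0 : ℝ) < 2 ^ J by positivity),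
          div_le_div_iff₀ (by positivity) (by positivity), one_mul]
        calc |(F.T v.2 : ℝ) - F.T v.1| * 2 ^ (w - y) ≤ 2 ^ (J - (w - y)) * 2 ^ (w - y) :=
              mul_le_mul_of_nonneg_right h1 (by positivity)
          _ = 2 ^ J := by rw [← pow_add]; congr 1; omega
      have e1 : ∀ j, F.x v.2 (σ j) = F.x v.1 (σ j) + (F.t v.2 - F.t v.1) * F.d v.1 (σ j) := by
        intro j
        unfold Fam.x
        rw [b3, b4]
        ring
      have e2 : (F.x v.2 (σ i) - (xb (z v.1) i + (F.t v.2 - F.t v.1) * db (z v.1) i)) +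
          ∑ j, (if j < i then M (z v.1) i j * (F.x v.2 (σ j) -
            (xb (z v.1) j + (F.t v.2 - F.t v.1) * db (z v.1) j)) else 0) =
          ((F.x v.1 (σ i) - xb (z v.1) i) + ∑ j, (if j < i then M (z v.1) i j *
            (F.x v.1 (σ j) - xb (z v.1) j) else 0)) + (F.t v.2 - F.t v.1) *
          ((F.d v.1 (σ i) - db (z v.1) i) + ∑ j, (if j < i then M (z v.1) i j *
            (F.d v.1 (σ j) - db (z v.1) j) else 0)) := by
        rw [mul_add, Finset.mul_sum, add_add_add_comm, ← Finset.sum_add_distrib]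
        congr 1
        · rw [e1]; ring
        · refine Finset.sum_congr rfl fun j _ => ?_
          split_ifs
          · rw [e1]; ring
          · ring
      rw [e2]
      refine (abs_add_le _ _).trans ?_
      rw [abs_mul]
      have e3 : |F.t v.2 - F.t v.1| * |(F.d v.1 (σ i) - db (z v.1) i) +
          ∑ j, (if j < i then M (z v.1) i j * (F.d v.1 (σ j) - db (z v.1) j) else 0)| ≤
          1 / 2 ^ (w - y) * (c * 2 ^ w / 2 ^ k i) :=
        mul_le_mul hτ g2 (abs_nonneg _) (by positivity)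
      have e4 : (1 : ℝ) / 2 ^ (w - y) * (c * 2 ^ w / 2 ^ k i) = c * 2 ^ y / 2 ^ k i := by
        have : (2 : ℝ) ^ w = 2 ^ (w - y) * 2 ^ y := by rw [← pow_add]; congr 1; omega
        rw [this]
        field_simp
      rw [e4] at e3
      have e5 : c / 2 ^ k i ≤ c * 2 ^ y / 2 ^ k i := by
        refine div_le_div_of_nonneg_right ?_ (by positivity)
        have : (1 : ℝ) ≤ 2 ^ y := one_le_pow₀ (by norm_num)
        nlinarith
      have e6 : 2 * c * 2 ^ y / 2 ^ k i = c * 2 ^ y / 2 ^ k i + c * 2 ^ y / 2 ^ k i := by ring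
      rw [e6]
      linarith
  have a4 : CH Q (fun v => z v.1) (fun v => ((F.X P v.2, F.W v.2), F.T v.1)) =
      CH Q (fun v => z v.1) (fun v => (F.X P v.2, V v)) := by
    refine CH_congr h0 (fun _ _ _ _ h => (Prod.ext_iff.mp h).1)
      (fun _ _ _ _ h => (Prod.ext_iff.mp h).1) ?_ ?_
    · intro v v' hv hv' h
      obtain ⟨-, -, -, -, a3, -⟩ := prs_pos hv
      obtain ⟨-, -, -, -, b3, -⟩ := prs_pos hv'
      simp only [hV, Prod.mk.injEq, Fam.W] at h ⊢
      exact ⟨h.1.1, h.2, h.1.2.1, a3.trans (h.1.2.2.trans b3.symm)⟩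
    · intro v v' hv hv' h
      obtain ⟨-, -, -, -, a3, -⟩ := prs_pos hv
      obtain ⟨-, -, -, -, b3, -⟩ := prs_pos hv'
      simp only [hV, Prod.mk.injEq, Fam.W] at h ⊢
      exact ⟨⟨h.1, h.2.2.1, a3.symm.trans (h.2.2.2.trans b3)⟩, h.2.1⟩
  rw [a4]
  have a5 := le_abs_self (m * Real.log (2 * (2 * (2 * c) + m * c + 1) + 1))
  linarith

end Pairs

end Pool.K3
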