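import Pool.Agent.H5.K3.BoxX

/-!
# Lemmas A and B with a top row

The points are `(F.X Q, F.W)` for a row `Q` of the position instead of the exact points.
-/

set_option autoImplicit false

namespace Pool.K3

open Finset Real
open Pool.Agent.H49.Ent Pool.Agent.H32.Dense Pool.STK Pool.KA Pool.KSAT Pool.KS6 Pool.K2S

section Main

variable {m : ℕ}

/-- The points of precision `Qt`. -/
noncomputable def ptm {J : ℕ} (F : Fam m J) (Qt : ℕ) (ω : F.Ω) : (Fin m → ℤ) × (ℕ × F.ζ) :=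
  (F.X Qt ω, F.W ω)

theorem pt_ptm {J : ℕ} (F : Fam m J) {Qt : ℕ} (hQ : Qt ≤ J) {ω ω' : F.Ω}
    (h : Fam.pt F ω = Fam.pt F ω') : ptm F Qt ω = ptm F Qt ω' := by
  obtain ⟨h1, h2⟩ := Prod.ext_iff.mp h
  exact Prod.ext (Pool.STK.B58.fl_fine hQ h1) h2

/-- A ball at points of precision `Qt` is a ball at the exact points. -/
theorem ball_of_ptm {J : ℕ} {F : Fam m J} {Qt : ℕ} (hQ : Qt ≤ J) {r : ℝ} {A : F.Ω → Prop}
    (h : Ball r (ptm F Qt) F.d A) : Ball r (Fam.pt F) F.d A := by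
  classical
  obtain ⟨c, hc⟩ := h
  refine ⟨fun u => if h : ∃ ω, Fam.pt F ω = u then c (ptm F Qt h.choose) else 0, ?_⟩
  intro ω hω
  have h : ∃ ω', Fam.pt F ω' = Fam.pt F ω := ⟨ω, rfl⟩
  have h1 := hc ω hω
  simp only [dif_pos h]
  rw [pt_ptm F hQ h.choose_spec]
  exact h1

/-- If the direction of the fans is not known from the window, the direction of the line is known
from the label at one time and the position at another time. -/
theorem boxB_coreQ {J : ℕ} (F : Fam m J) (Qt : ℕ) {A : F.Ω → Prop} (hA : 0 < Pe F.p A) {i₀ : Fin m}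
    {κ : ℝ} {h l q w x : ℕ} {S : Type} {z : F.Ω → S}
    (hs : Stb F.p κ A (RotU i₀ (1 / 2 ^ l) (1 / 2 ^ l) (ptm F Qt) (slam F w) F.d))
    (hn : ¬ RotU i₀ (1 / 2 ^ l) (1 / 2 ^ l) (ptm F Qt) (slam F w) F.d A)
    (hs' : Stb F.p κ A (Ball (1 / 2 ^ x) (ptm F Qt) F.d))
    (hn' : ¬ Ball (1 / 2 ^ x) (ptm F Qt) F.d A)
    (hb : LineAt i₀ (1 / 2 ^ h) (ptm F Qt) F.d A) (hz : ∃ φ : (Fin m → ℤ) × (ℕ × F.ζ) → S, ∀ ω, A ω → z ω = φ (ptm F Qt ω))
    (hl : LineU i₀ (1 / 2 ^ (l + q)) z F.d A) (hh : x + 3 ≤ h) (hx : x + 3 ≤ l + q)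
    (hlaw : IsLaw (Pool.Agent.H49.Ent.cond F.p A True)) :
    CH (prs (F.res A True hlaw) w) (fun v => F.D q v.2)
      (fun v => (z v.1, (F.T v.1, ptm F Qt v.2))) ≤
      Real.log 2 + m * (Real.log (2 * 11 + 1) +
        2 * Real.exp (-κ) * Real.log (2 * (2 * 2 ^ q + 1) + 1)) := by
  classical
  have hp := F.isLaw
  obtain ⟨φ, hφ⟩ := hz
  obtain ⟨e, n, hen⟩ := hl
  obtain ⟨e₀, n₀, he₀⟩ := hb
  set G := F.res A True hlaw with hG
  have hA' : ∀ ω, 0 < G.p ω → A ω := fun ω hω => by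
    have := ((cond_pos_iff hp.nonneg A True ω).1 hω).2
    simpa using this
  -- the frames of the label, as functions of the point
  have hon : OnL i₀ (1 / 2 ^ (l + q)) (ptm F Qt) F.d A (fun u => e (φ u)) (fun u => n (φ u)) := by
    intro ω hω j
    have := hen ω hω j
    rwa [hφ ω hω] at this
  have hle : (1 : ℝ) / 2 ^ (l + q) ≤ 1 / 2 ^ l :=
    one_div_le_one_div_of_le (by positivity) (pow_le_pow_right₀ (by norm_num) (by omega))
  -- the event of bad pairs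
  set far : F.Ω → Prop := fun ω => Thin (1 / 2 ^ x) (ptm F Qt) F.d A ω with hfar
  set B : F.Ω × F.Ω → Prop := fun v =>
    (∀ j, |e (φ (ptm F Qt v.1)) j - e (φ (ptm F Qt v.2)) j| ≤ 1 / 2 ^ l) ∨ far v.2 with hB
  have hPe : Pe (prs G w) B ≤ 2 * Real.exp (-κ) := by
    have h1 : Pe (prs G w) (fun v => ∀ j, |e (φ (ptm F Qt v.1)) j - e (φ (ptm F Qt v.2)) j| ≤
        1 / 2 ^ l) < Real.exp (-κ) :=
      hs.rotU_cpy_lt hp hA hn (hon.mono hle) (wn' := slam F w) (φ := id) (fun _ => rfl)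
    have h2 : Pe (prs G w) (fun v => far v.2) < Real.exp (-κ) := by
      have h3 : Pe (prs G w) (fun v => far v.2) = Pe G.p far := Pe_snd G w far
      rw [h3]
      have h4 : Pe G.p far = Pe F.p (fun ω => A ω ∧ far ω) / Pe F.p A := Pe_cond far
      rw [h4, div_lt_iff₀ hA]
      exact hs'.thin_lt hn'
    have h3 := Pe_or (prs_law G w) (A := B) (B₀ := fun v => ∀ j, |e (φ (ptm F Qt v.1)) j -
      e (φ (ptm F Qt v.2)) j| ≤ 1 / 2 ^ l) (B₁ := fun v => far v.2) (fun v hv => hv)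
    linarith only [h1, h2, h3]
  have h2q : (0 : ℝ) < 2 ^ q := by positivity
  -- bounded slopes away from the thin fans
  have hbd : ∀ ω, A ω → ¬ far ω → ∀ j, |e (φ (ptm F Qt ω)) j| ≤ 2 := by
    intro ω hω hf j
    have hsub : Sub (fun ω => A ω ∧ ¬ Thin (1 / 2 ^ x) (ptm F Qt) F.d A ω) A := fun ω hω => hω.1
    have h1 := spread_of_not_thin (1 / 2 ^ x) (ptm F Qt) F.d A
    have h2 := he₀.sub hsub
    have h3 := h2.spreadI h1
    have e1 : (1 : ℝ) / 2 ^ h ≤ 1 / 8 * (1 / 2 ^ x) := by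
      rw [one_div_mul_one_div, show (8 : ℝ) * 2 ^ x = 2 ^ (x + 3) by rw [pow_add]; ring]
      exact one_div_le_one_div_of_le (by positivity) (pow_le_pow_right₀ (by norm_num) hh)
    have e2 : (1 : ℝ) / 2 ^ (l + q) ≤ 1 / 8 * (1 / 2 ^ x) := by
      rw [one_div_mul_one_div, show (8 : ℝ) * 2 ^ x = 2 ^ (x + 3) by rw [pow_add]; ring]
      exact one_div_le_one_div_of_le (by positivity) (pow_le_pow_right₀ (by norm_num) hx)
    have e3 : (0 : ℝ) < 1 / 2 ^ x := by positivity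
    exact OnL.bound h2 (hon.sub hsub) h3 (by linarith only [e1, e3]) (by linarith only [e1, e2, e3]) ω ⟨hω, hf⟩ j
  refine CH_le_good (prs_law G w) _ _ B 11 (2 * 2 ^ q + 1) (2 * Real.exp (-κ)) (by norm_num)
    (by positivity) hPe ?_ ?_
  · intro v v' hv hv' hW hBv hBv' k
    obtain ⟨a1, a2, a3, a4, a5, a6⟩ := prs_pos hv
    obtain ⟨b1, b2, b3, b4, b5, b6⟩ := prs_pos hv'
    simp only [Prod.mk.injEq] at hW
    obtain ⟨g1, g2, g3⟩ := hW
    rw [hB] at hBv
    push Not at hBv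
    obtain ⟨⟨j₀, hj₀⟩, hf⟩ := hBv
    have c1 := hA' _ a1
    have c2 := hA' _ a2
    have c3 := hA' _ b1
    have c4 := hA' _ b2
    have a4' : F.d v.1 = F.d v.2 := a4
    have b4' : F.d v'.1 = F.d v'.2 := b4
    have key := cross_two (m := m) (Δ := fun j => F.d v.2 j - F.d v'.2 j)
      (e := e (z v.1)) (e' := e (φ (ptm F Qt v.2))) (Δ₀ := F.d v.2 i₀ - F.d v'.2 i₀)
      (r := 2 * (1 / 2 ^ (l + q))) (ρ := 1 / 2 ^ l) (by positivity) ?_ ?_ ?_ (hbd _ c2 hf) ?_ k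
    · have e1 : 5 * (2 * (1 / 2 ^ (l + q))) / (1 / 2 ^ l) = (10 : ℝ) / 2 ^ q := by
        rw [pow_add]
        field_simp
        norm_num
      rw [e1, le_div_iff₀ h2q] at key
      have f1 := Int.floor_le ((2 : ℝ) ^ q * F.d v.2 k)
      have f2 := Int.lt_floor_add_one ((2 : ℝ) ^ q * F.d v.2 k)
      have f3 := Int.floor_le ((2 : ℝ) ^ q * F.d v'.2 k)
      have f4 := Int.lt_floor_add_one ((2 : ℝ) ^ q * F.d v'.2 k)
      have f5 : |(2 : ℝ) ^ q * F.d v.2 k - 2 ^ q * F.d v'.2 k| ≤ 10 := by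
        rw [← mul_sub, abs_mul, abs_of_pos h2q, mul_comm]
        exact key
      change |((⌊(2 : ℝ) ^ q * F.d v.2 k⌋ - ⌊(2 : ℝ) ^ q * F.d v'.2 k⌋ : ℤ) : ℝ)| ≤ 11
      rw [abs_le] at f5 ⊢
      push_cast
      constructor <;> linarith [f5.1, f5.2]
    · intro j
      have d1 := hen _ c1 j
      have d2 := hen _ c3 j
      rw [a4'] at d1
      rw [← g1, b4'] at d2
      have e1 : (F.d v.2 j - F.d v'.2 j) - e (z v.1) j * (F.d v.2 i₀ - F.d v'.2 i₀) =
          (F.d v.2 j - e (z v.1) j * F.d v.2 i₀ - n (z v.1) j) -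
          (F.d v'.2 j - e (z v.1) j * F.d v'.2 i₀ - n (z v.1) j) := by ring
      rw [e1]
      refine (abs_sub _ _).trans ?_
      linarith only [hlaw, d1, d2]
    · intro j
      have d1 := hon _ c2 j
      have d2 := hon _ c4 j
      rw [← g3] at d2
      have e1 : (F.d v.2 j - F.d v'.2 j) - e (φ (ptm F Qt v.2)) j * (F.d v.2 i₀ - F.d v'.2 i₀) =
          (F.d v.2 j - e (φ (ptm F Qt v.2)) j * F.d v.2 i₀ - n (φ (ptm F Qt v.2)) j) -
          (F.d v'.2 j - e (φ (ptm F Qt v.2)) j * F.d v'.2 i₀ - n (φ (ptm F Qt v.2)) j) := by ring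
      rw [e1]
      refine (abs_sub _ _).trans ?_
      linarith only [hlaw, d1, d2]
    · refine ⟨j₀, ?_⟩
      rw [hφ _ c1]
      exact hj₀
    · rw [div_le_one (by positivity)]
      exact one_le_pow₀ (by norm_num)
  · intro v v' hv hv' hW k
    have h1 := F.dir v.2 k
    have h2 := F.dir v'.2 k
    have f1 := Int.floor_le ((2 : ℝ) ^ q * F.d v.2 k)
    have f2 := Int.lt_floor_add_one ((2 : ℝ) ^ q * F.d v.2 k)
    have f3 := Int.floor_le ((2 : ℝ) ^ q * F.d v'.2 k)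
    have f4 := Int.lt_floor_add_one ((2 : ℝ) ^ q * F.d v'.2 k)
    have f5 : |(2 : ℝ) ^ q * F.d v.2 k| ≤ 2 ^ q := by
      rw [abs_mul, abs_of_pos h2q]
      nlinarith only [h2q, h1]
    have f6 : |(2 : ℝ) ^ q * F.d v'.2 k| ≤ 2 ^ q := by
      rw [abs_mul, abs_of_pos h2q]
      nlinarith only [h2q, h2]
    change |((⌊(2 : ℝ) ^ q * F.d v.2 k⌋ - ⌊(2 : ℝ) ^ q * F.d v'.2 k⌋ : ℤ) : ℝ)| ≤ 2 * 2 ^ q + 1
    rw [abs_le] at f5 f6 ⊢
    push_cast
    constructor <;> linarith [f5.1, f5.2, f6.1, f6.2]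

/-- **Lemma B (claim).** Scales are multiples of `J / N`: `j` is the precision to which the label
determines the line of directions, `b` the number of digits of the velocity, `v` the window. -/
def LBQStmt : Prop :=
  ∀ (m : ℕ) (a R : ℝ), 1 ≤ a → 0 < R → UBa m a R → ∀ h₁ η : ℝ, 0 < h₁ → 0 < η →
    ∀ (N : ℕ) (i₀ : Fin m) (j b v : ℕ), b ≤ j → b < N → v ≤ N →
    ∀ Q : ℕ → ℕ, (∀ J, Q J ≤ J) →
    Claim (m := m) a R (fun J F A => LineAt i₀ (1 / 2 ^ ⌊h₁ * J⌋₊) (ptm F (Q J)) F.d A →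
      ∀ (S : Type) (z : F.Ω → S),
      (∃ φ : (Fin m → ℤ) × (ℕ × F.ζ) → S, ∀ ω, A ω → z ω = φ (ptm F (Q J) ω)) →
      LineU i₀ (1 / 2 ^ (j * (J / N))) z F.d A →
      CH (cpy (Pool.Agent.H49.Ent.cond F.p A True) (slam F (v * (J / N)))) (fun w => z w.1)
        (fun w => (ptm F (Q J) w.2, F.T w.1)) ≤ R / a * ((b * (J / N) : ℕ) : ℝ) - η * J →
      RotU i₀ (1 / 2 ^ ((j - b) * (J / N))) (1 / 2 ^ ((j - b) * (J / N))) (ptm F (Q J))
        (slam F (v * (J / N))) F.d A)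

theorem lbq_thm : LBQStmt := by
  classical
  intro m a R ha hR hU h₁ η hh₁ hη N i₀ j b v hbj hbN hvN Q hQJ
  have hN0 : 0 < N := by omega
  have hNr : (0 : ℝ) < N := by exact_mod_cast hN0
  have ha0 : 0 < a := by linarith only [ha]
  rcases Nat.eq_zero_or_pos b with hb0 | hb0
  · -- the case `b = 0` is void for large `J`
    refine Claim.of one_pos 1 fun J hJ F A hS hb S z hz hl hC => ?_
    exfalso
    have h1 : 0 ≤ CH (cpy (Pool.Agent.H49.Ent.cond F.p A True) (slam F (v * (J / N))))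
        (fun w => z w.1) (fun w => (ptm F (Q J) w.2, F.T w.1)) := by
      refine CH_nonneg (fun w => ?_) _ _
      unfold cpy
      have h2 : ∀ ω, 0 ≤ Pool.Agent.H49.Ent.cond F.p A True ω :=
        cond_nonneg F.isLaw.nonneg A True
      split_ifs
      · exact div_nonneg (mul_nonneg (h2 _) (h2 _)) (law_nonneg h2 _ _)
      · exact le_rfl
    rw [hb0] at hC
    have hJr : (1 : ℝ) ≤ J := by exact_mod_cast hJ
    simp only [zero_mul, Nat.cast_zero, mul_zero, zero_sub] at hC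
    have : 0 < η * J := by positivity
    linarith only [h1, hC, this]
  -- the spread of the fans
  obtain ⟨x, hx⟩ : ∃ x, x = min h₁ (1 / N) / 4 := ⟨_, rfl⟩
  have hx0 : 0 < x := by rw [hx]; positivity
  have hx1 : x ≤ h₁ / 4 := by
    rw [hx]
    have := min_le_left h₁ (1 / N : ℝ)
    linarith only [this]
  have hx2 : x ≤ 1 / N / 4 := by
    rw [hx]
    have := min_le_right h₁ (1 / N : ℝ)
    linarith only [this]
  refine Claim.one ⟨2, fun J F i => if i = 0 then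
    RotU i₀ (1 / 2 ^ ((j - b) * (J / N))) (1 / 2 ^ ((j - b) * (J / N))) (ptm F (Q J))
      (slam F (v * (J / N))) F.d else Ball (1 / 2 ^ ⌈x * J⌉₊) (ptm F (Q J)) F.d,
    fun J F i => by
      split_ifs
      · exact RotU.hered _ _ _ _ _ _
      · exact Ball.hered _ _ _⟩ fun κ hκ => ?_
  obtain ⟨τ₁, hτ₁, J₂, hball⟩ := not_ball (ap6r_thm ap5_thm (ap2_thm aop_thm) tub_thm) ha hR hU hx0
  obtain ⟨x₀, hx₀⟩ : ∃ x₀ : ℝ, x₀ = 1 / N := ⟨_, rfl⟩
  have hx₀0 : 0 < x₀ := by rw [hx₀]; positivity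
  obtain ⟨τ₂, hτ₂, J₃, hact⟩ := act_thm m a R ha hU (η := η / 4) (x₀ := x₀) (by positivity) hx₀0
  obtain ⟨τ', hτ'⟩ : ∃ τ', τ' = min (min τ₁ τ₂) (η / 4) := ⟨_, rfl⟩
  have hτ'0 : 0 < τ' := by rw [hτ']; positivity
  obtain ⟨τ, hτ⟩ : ∃ τ, τ = τ' / (6 * (1 + a)) := ⟨_, rfl⟩
  have hτ0 : 0 < τ := by rw [hτ]; positivity
  obtain ⟨Cst, hCst⟩ : ∃ Cst : ℝ, Cst = Real.log 5 + Real.log 2 + m * (Real.log (2 * 11 + 1) +
    2 * (3 / κ + 3)) := ⟨_, rfl⟩
  have hCst0 : 0 ≤ Cst := by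
    rw [hCst]
    have h1 : 0 ≤ Real.log 5 := Real.log_nonneg (by norm_num)
    have h2 : 0 ≤ Real.log 2 := Real.log_nonneg (by norm_num)
    have h3 : 0 ≤ Real.log (2 * 11 + 1) := Real.log_nonneg (by norm_num)
    positivity
  obtain ⟨J₁, hJ₁⟩ := exists_nat_gt (Cst / (η / 4) + J₂ + J₃ + 16 / x + 16 * N + 1)
  refine ⟨τ, hτ0, J₁, ?_⟩
  intro J hJ F A hS hSb hb S z hz hl hC
  by_contra hn
  have hJr : Cst / (η / 4) + J₂ + J₃ + 16 / x + 16 * N + 1 < J :=
    hJ₁.trans_le (by exact_mod_cast hJ)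
  have t1 : 0 ≤ Cst / (η / 4) := by positivity
  have t2 : (0 : ℝ) ≤ J₂ := by positivity
  have t3 : (0 : ℝ) ≤ J₃ := by positivity
  have t4 : 0 ≤ 16 / x := by positivity
  have t5 : 0 ≤ 16 * (N : ℝ) := by positivity
  have hJ0 : (0 : ℝ) < J := by linarith only [hNr, hJr, t1, t4]
  have k1 : Cst < η / 4 * J := by
    have : Cst / (η / 4) < J := by linarith only [hNr, hJr, t4]
    rw [div_lt_iff₀ (by positivity)] at this
    linarith only [this]
  have k2 : J₂ ≤ J := by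
    have : (J₂ : ℝ) ≤ J := by linarith only [hNr, hJr, t1, t4]
    exact_mod_cast this
  have k3 : J₃ ≤ J := by
    have : (J₃ : ℝ) ≤ J := by linarith only [hNr, hJr, t1, t4]
    exact_mod_cast this
  have k4 : 16 < x * J := by
    have : 16 / x < J := by linarith only [hNr, hJr, t1]
    rw [div_lt_iff₀ hx0] at this
    linarith only [this]
  have k5 : 16 * (N : ℝ) < J := by linarith only [hJr, t1, t4]
  obtain ⟨hTr, hMx, hRb, hPA⟩ := hS
  have hp := F.isLaw
  have hA0 : 0 < Pe F.p A := lt_of_lt_of_le (Real.exp_pos _) hPA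
  obtain ⟨hlaw, -, hMx', -⟩ := max_res F ha hτ0.le hτ0.le hTr hMx hRb A hPA
  have e7 : (1 + a) * (5 * τ + τ) = τ' := by
    rw [hτ]
    field_simp
    ring
  rw [e7] at hMx'
  have hle : ∀ t, τ' ≤ t → (F.res A True hlaw).Mx a R t := by
    intro t ht
    have e1 : τ' * J ≤ t * J := mul_le_mul_of_nonneg_right ht hJ0.le
    have h1 := hMx'.1
    have h2 := hMx'.2
    refine ⟨?_, ?_⟩
    · unfold Fam.Tm at h1 ⊢
      linarith only [hlaw, e1, h1]
    · have e2 : (R - t) * J ≤ (R - τ') * J :=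
        mul_le_mul_of_nonneg_right (by linarith only [ht]) hJ0.le
      linarith only [hlaw, e1, h2]
  -- scales
  obtain ⟨u, hu⟩ : ∃ u, u = J / N := ⟨_, rfl⟩
  rw [← hu] at hl hC hn
  have hu1 : N * u ≤ J := by rw [hu]; exact Nat.mul_div_le J N
  have hu2 : (J : ℝ) < N * (u + 1) := by
    have := Nat.lt_mul_div_succ J hN0
    rw [← hu] at this
    exact_mod_cast this
  have hu1r : (N : ℝ) * u ≤ J := by exact_mod_cast hu1
  have hxu : ⌈x * J⌉₊ + 3 ≤ u := by
    have h1 : (⌈x * J⌉₊ : ℝ) < x * J + 1 := Nat.ceil_lt_add_one (by positivity)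
    have h2 : x * J ≤ (u + 1) / 4 := by
      calc x * J ≤ 1 / N / 4 * J := mul_le_mul_of_nonneg_right hx2 hJ0.le
        _ = J / N / 4 := by ring
        _ ≤ _ := by
          refine div_le_div_of_nonneg_right ?_ (by norm_num)
          rw [div_le_iff₀ hNr]
          linarith only [hu2]
    have h3 : (⌈x * J⌉₊ : ℝ) + 3 ≤ u := by
      have h4 : 16 < (u : ℝ) + 1 := by
        have : (N : ℝ) * 16 < N * (u + 1) := by linarith only [hJr, t1, t4, hu2]
        exact lt_of_mul_lt_mul_left this hNr.le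
      linarith only [k4, h1, h2]
    exact_mod_cast h3
  have hxh : ⌈x * J⌉₊ + 3 ≤ ⌊h₁ * J⌋₊ := by
    have h1 : (⌈x * J⌉₊ : ℝ) < x * J + 1 := Nat.ceil_lt_add_one (by positivity)
    have h2 : x * J ≤ h₁ / 4 * J := mul_le_mul_of_nonneg_right hx1 hJ0.le
    refine Nat.le_floor ?_
    push_cast
    linarith only [k4, h1, h2]
  have hjb : (j - b) * u + b * u = j * u := by
    rw [← add_mul]
    congr 1
    omega
  have hbu : u ≤ j * u := by
    have : 1 * u ≤ j * u := Nat.mul_le_mul_right u (by omega)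
    omega
  have hs0 := hSb 0
  have hs1 := hSb 1
  simp only [if_true, ← hu] at hs0
  simp only [show ¬ ((1 : Fin 2) = 0) by decide, if_false] at hs1
  have hnb : ¬ Ball (1 / 2 ^ ⌈x * J⌉₊) (ptm F (Q J)) F.d A := by
    intro hball0
    obtain ⟨ζ, hζ⟩ := ball_of_ptm (hQJ J) hball0
    have hxJ : ⌈x * J⌉₊ ≤ J := by
      have h1 : u ≤ J := by
        have : 1 * u ≤ N * u := Nat.mul_le_mul_right u (by omega)
        omega
      omega
    refine hball J k2 (F.res A True hlaw) (hle τ₁ ?_) ⌈x * J⌉₊ hxJ (Nat.le_ceil _) ⟨ζ, ?_⟩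
    · rw [hτ']
      exact (min_le_left _ _).trans (min_le_left _ _)
    · intro ω hω i
      have hω' : A ω := by
        have := ((cond_pos_iff hp.nonneg A True ω).1 hω).2
        simpa using this
      exact hζ ω hω' i
  have hcore := boxB_coreQ F (Q J) hA0 (κ := κ * J) (h := ⌊h₁ * J⌋₊) (l := (j - b) * u) (q := b * u)
    (w := v * u) (x := ⌈x * J⌉₊) (z := z) hs0 hn hs1 hnb hb hz (by rw [hjb]; exact hl) hxh
    (by rw [hjb]; omega) hlaw
  -- activity
  have hbJ : b * u ≤ J := by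
    have : b * u ≤ N * u := Nat.mul_le_mul_right u hbN.le
    omega
  have hbJr : ((b * u : ℕ) : ℝ) ≤ (1 - x₀) * J := by
    have h1 : (b + 1) * u ≤ N * u := Nat.mul_le_mul_right u hbN
    have h2 : ((b : ℝ) + 1) * u ≤ N * u := by exact_mod_cast h1
    have h3 : (b : ℝ) + 1 ≤ N := by exact_mod_cast hbN
    have h4 : (u : ℝ) ≤ J / N := by
      rw [le_div_iff₀ hNr]
      linarith only [hu1r]
    have h5 : (b : ℝ) * u ≤ (N - 1) * (J / N) := by
      have h6 : (b : ℝ) ≤ N - 1 := by linarith only [h3]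
      have h7 : (0 : ℝ) ≤ b := Nat.cast_nonneg b
      exact mul_le_mul h6 h4 (Nat.cast_nonneg u) (by linarith only [h3])
    push_cast
    refine h5.trans (le_of_eq ?_)
    rw [hx₀]
    field_simp
  have hA2 := hact J k3 (F.res A True hlaw) (hle τ₂ (by
    rw [hτ']
    exact (min_le_left _ _).trans (min_le_right _ _))) (b * u) hbJ hbJr
  have hvu : v * u ≤ J := by
    have : v * u ≤ N * u := Nat.mul_le_mul_right u hvN
    omega
  have hTm : (F.res A True hlaw).Tm (τ' * J) := hMx'.1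
  have hB2 := prs_time' (F.res A True hlaw) hvu hTm ((F.res A True hlaw).D (b * u))
    (fun ω => ((F.res A True hlaw).X (Q J) ω, (F.res A True hlaw).W ω)) (fun ω ω' _ _ h => by
      have h2 : (F.res A True hlaw).T ω = (F.res A True hlaw).T ω' :=
        (Prod.ext_iff.mp (Prod.ext_iff.mp h).2).1
      unfold Fam.T1
      rw [h2])
  obtain ⟨G, hG⟩ : ∃ G, G = F.res A True hlaw := ⟨_, rfl⟩
  have hQ0 := (prs_law (F.res A True hlaw) (v * u)).nonneg
  have hC1 : CH (prs (F.res A True hlaw) (v * u)) (fun w : F.Ω × F.Ω => F.D (b * u) w.2)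
      (fun w => (F.T w.1, ptm F (Q J) w.2)) ≤
      CH (prs (F.res A True hlaw) (v * u)) (fun w : F.Ω × F.Ω => z w.1)
      (fun w => (F.T w.1, ptm F (Q J) w.2)) +
      CH (prs (F.res A True hlaw) (v * u)) (fun w : F.Ω × F.Ω => F.D (b * u) w.2)
      (fun w => (z w.1, (F.T w.1, ptm F (Q J) w.2))) :=
    CH_le_add hQ0 (fun w : F.Ω × F.Ω => F.D (b * u) w.2) (fun w => z w.1)
      (fun w => (F.T w.1, ptm F (Q J) w.2))
  have hC2 : CH (prs (F.res A True hlaw) (v * u)) (fun w : F.Ω × F.Ω => z w.1)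
      (fun w => (F.T w.1, ptm F (Q J) w.2)) ≤ R / a * ((b * u : ℕ) : ℝ) - η * J := by
    refine le_trans (le_of_eq ?_) hC
    refine CH_congr hQ0 (fun _ _ _ _ h => (Prod.ext_iff.mp h).1)
      (fun _ _ _ _ h => (Prod.ext_iff.mp h).1) ?_ ?_
    · intro w w' _ _ h
      simp only [Prod.mk.injEq] at h ⊢
      exact ⟨h.2, h.1⟩
    · intro w w' _ _ h
      simp only [Prod.mk.injEq] at h ⊢
      exact ⟨h.2, h.1⟩
  -- the error of the bad pairs
  have hexp : Real.exp (-(κ * J)) * Real.log (2 * (2 * 2 ^ (b * u) + 1) + 1) ≤ 3 / κ + 3 := by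
    have h1 : Real.log (2 * (2 * 2 ^ (b * u) + 1) + 1) ≤ ((b * u : ℕ) : ℝ) * Real.log 2 + 3 := by
      have h2 : (2 * (2 * 2 ^ (b * u) + 1) + 1 : ℝ) ≤ 2 ^ (b * u) * 7 := by
        have : (1 : ℝ) ≤ 2 ^ (b * u) := one_le_pow₀ (by norm_num)
        linarith only [this]
      have h3 := Real.log_le_log (by positivity) h2
      rw [Real.log_mul (by positivity) (by norm_num), Real.log_pow] at h3
      have h4 : Real.log 7 ≤ 3 := by
        have : Real.log 7 ≤ Real.log (Real.exp 3) := by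
          refine Real.log_le_log (by norm_num) ?_
          have := Real.add_one_le_exp (1 : ℝ)
          have h5 : (7 : ℝ) ≤ (1 + 1) ^ 3 := by norm_num
          have h6 : ((1 : ℝ) + 1) ^ 3 ≤ Real.exp 1 ^ 3 :=
            pow_le_pow_left₀ (by norm_num) this 3
          rw [← Real.exp_nat_mul] at h6
          norm_num at h6 ⊢
          linarith only [h6]
        rwa [Real.log_exp] at this
      linarith only [h3, h4]
    have h2 : ((b * u : ℕ) : ℝ) * Real.log 2 ≤ J := by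
      have h3 : ((b * u : ℕ) : ℝ) ≤ J := by exact_mod_cast hbJ
      have h4 : Real.log 2 ≤ 1 := by
        have := Real.log_two_lt_d9
        linarith only [this]
      calc _ ≤ (J : ℝ) * 1 := mul_le_mul h3 h4 (Real.log_nonneg (by norm_num)) hJ0.le
        _ = _ := mul_one _
    have h3 : Real.exp (-(κ * J)) * J ≤ 1 / κ := by
      have h4 := Real.add_one_le_exp (κ * J)
      have h5 : κ * J ≤ Real.exp (κ * J) := by linarith only [h4]
      rw [Real.exp_neg, inv_mul_le_iff₀ (Real.exp_pos _), mul_one_div, le_div_iff₀ hκ]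
      linarith only [h4]
    have h4 : Real.exp (-(κ * J)) ≤ 1 := by
      rw [Real.exp_le_one_iff]
      have : 0 < κ * J := by positivity
      linarith only [this]
    calc _ ≤ Real.exp (-(κ * J)) * (J + 3) :=
          mul_le_mul_of_nonneg_left (by linarith only [h1, h2]) (Real.exp_pos _).le
      _ = Real.exp (-(κ * J)) * J + 3 * Real.exp (-(κ * J)) := by ring
      _ ≤ 1 / κ + 3 := by linarith only [h3, h4]
      _ ≤ 3 / κ + 3 := by
          have : 1 / κ ≤ 3 / κ := div_le_div_of_nonneg_right (by norm_num) hκ.le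
          linarith only [this]
  have hm : (m : ℝ) * (Real.log (2 * 11 + 1) + 2 * Real.exp (-(κ * J)) *
      Real.log (2 * (2 * 2 ^ (b * u) + 1) + 1)) ≤
      m * (Real.log (2 * 11 + 1) + 2 * (3 / κ + 3)) := by
    refine mul_le_mul_of_nonneg_left ?_ (Nat.cast_nonneg m)
    have : 2 * Real.exp (-(κ * J)) * Real.log (2 * (2 * 2 ^ (b * u) + 1) + 1) =
      2 * (Real.exp (-(κ * J)) * Real.log (2 * (2 * 2 ^ (b * u) + 1) + 1)) := by ring
    rw [this]
    linarith only [hexp]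
  have hτη : τ' * J ≤ η / 4 * J := by
    refine mul_le_mul_of_nonneg_right ?_ hJ0.le
    rw [hτ']
    exact min_le_right _ _
  have hD1 : R / a * ((b * u : ℕ) : ℝ) - η / 4 * J ≤
      CH (F.res A True hlaw).p ((F.res A True hlaw).D (b * u))
        (fun ω => ((F.res A True hlaw).X (Q J) ω, (F.res A True hlaw).W ω)) := by
    refine hA2.trans (CH_mono_cond hlaw.nonneg fun ω ω' _ _ h => ?_)
    obtain ⟨h1, h2⟩ := Prod.ext_iff.mp h
    exact Prod.ext (Pool.STK.B58.fl_fine (hQJ J) h1) h2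
  have hD2 : CH (F.res A True hlaw).p ((F.res A True hlaw).D (b * u))
        (fun ω => ((F.res A True hlaw).X (Q J) ω, (F.res A True hlaw).W ω)) -
        (τ' * J + Real.log 5) ≤ CH (prs (F.res A True hlaw) (v * u))
        (fun w : F.Ω × F.Ω => F.D (b * u) w.2) (fun w => (F.T w.1, ptm F (Q J) w.2)) := hB2
  have hD3 : CH (prs (F.res A True hlaw) (v * u)) (fun w : F.Ω × F.Ω => F.D (b * u) w.2)
      (fun w => (z w.1, (F.T w.1, ptm F (Q J) w.2))) ≤ Real.log 2 + m * (Real.log (2 * 11 + 1) +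
        2 * Real.exp (-(κ * J)) * Real.log (2 * (2 * 2 ^ (b * u) + 1) + 1)) := hcore
  have hηJ : 0 < η * J := by positivity
  have h1 := hD1.trans (sub_le_iff_le_add.1 hD2)
  have h2 := hC1.trans (add_le_add hC2 (hD3.trans (add_le_add le_rfl hm)))
  have h3 := h1.trans (add_le_add h2 le_rfl)
  rw [hCst] at k1
  linarith only [hlaw, hCst, hCst0, k1, hτη, hD1, hD2, h2]

end Main

/-- **Lemmas A and B (claim).** The window of the label is `v`, its box has precisions `k`, it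
determines the line of directions to precision `j`; the position at resolution `P` is full in the
box up to a deficit, and the label is visible from it up to a small error; then on the windows
`v - y` the direction is conserved to precision `j - b`, if `(R / a) b` is larger than the deficit
plus `m y log 2` plus the error. -/
def LABQStmt : Prop :=
  ∀ (m : ℕ) (a R : ℝ), 1 ≤ a → 0 < R → UBa m a R → ∀ h₁ η c : ℝ, 0 < h₁ → 0 < η → 1 ≤ c →
    ∀ (N : ℕ) (i₀ : Fin m) (σ : Fin m → Fin m), Function.Surjective σ →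
    ∀ j b v y : ℕ, b ≤ j → b < N → v ≤ N → y ≤ v → ∀ Q : ℕ → ℕ, (∀ J, Q J ≤ J) →
    Claim (m := m) a R (fun J F A => LineAt i₀ (1 / 2 ^ ⌊h₁ * J⌋₊) (ptm F (Q J)) F.d A →
      ∀ (S : Type) (z : F.Ω → S) (k : Fin m → ℕ) (P : ℕ), P ≤ Q J → (∀ i, k i ≤ P) →
      (∃ φ : (Fin m → ℤ) × (ℕ × F.ζ) → S, ∀ ω, A ω → z ω = φ (ptm F (Q J) ω)) →
      BoxL F.x F.d A z σ k (v * (J / N)) c →
      LineU i₀ (1 / 2 ^ (j * (J / N))) z F.d A →
      full P k - CH (Pool.Agent.H49.Ent.cond F.p A True) (F.X P) (fun ω => (z ω, F.W ω)) +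
        CH (Pool.Agent.H49.Ent.cond F.p A True) z (fun ω => (F.X P ω, F.W ω)) +
        m * (((y * (J / N) : ℕ) : ℝ) * Real.log 2) ≤ R / a * ((b * (J / N) : ℕ) : ℝ) - η * J →
      RotU i₀ (1 / 2 ^ ((j - b) * (J / N))) (1 / 2 ^ ((j - b) * (J / N))) (ptm F (Q J))
        (slam F ((v - y) * (J / N))) F.d A)

theorem labq_thm : LABQStmt := by
  classical
  intro m a R ha hR hU h₁ η c hh₁ hη hc N i₀ σ hσ j b v y hbj hbN hvN hyv Q hQJ
  have hN0 : 0 < N := by omega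
  obtain ⟨C, hC, hboxA⟩ := boxA m c hc
  have hB := lbq_thm m a R ha hR hU h₁ (η / 2) hh₁ (by positivity) N i₀ j b (v - y) hbj hbN
    (by omega) Q hQJ
  refine Claim.mp ?_ hB
  obtain ⟨τ', hτ'⟩ : ∃ τ', τ' = η / 4 := ⟨_, rfl⟩
  have hτ'0 : 0 < τ' := by rw [hτ']; positivity
  obtain ⟨τ, hτ⟩ : ∃ τ, τ = τ' / (6 * (1 + a)) := ⟨_, rfl⟩
  have hτ0 : 0 < τ := by rw [hτ]; positivity
  obtain ⟨J₁, hJ₁⟩ := exists_nat_gt (C / (η / 4))
  refine Claim.of hτ0 J₁ fun J hJ F A hS hcl hb S z k P hP hk hz hbox hl hD => ?_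
  have hJr : C / (η / 4) < J := hJ₁.trans_le (by exact_mod_cast hJ)
  have t1 : 0 ≤ C / (η / 4) := by positivity
  have hJ0 : (0 : ℝ) < J := by linarith only [hJr, t1]
  have k1 : C < η / 4 * J := by
    rw [div_lt_iff₀ (by positivity)] at hJr
    linarith only [hJr]
  obtain ⟨hTr, hMx, hRb, hPA⟩ := hS
  have hp := F.isLaw
  obtain ⟨hlaw, -, hMx', -⟩ := max_res F ha hτ0.le hτ0.le hTr hMx hRb A hPA
  have e7 : (1 + a) * (5 * τ + τ) = τ' := by
    rw [hτ]
    field_simp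
    ring
  rw [e7] at hMx'
  have hA' : ∀ ω, 0 < (F.res A True hlaw).p ω → A ω := fun ω hω => by
    have := ((cond_pos_iff hp.nonneg A True ω).1 hω).2
    simpa using this
  obtain ⟨u, hu⟩ : ∃ u, u = J / N := ⟨_, rfl⟩
  have hu1 : N * u ≤ J := by rw [hu]; exact Nat.mul_div_le J N
  have hvu : v * u ≤ J := by
    have : v * u ≤ N * u := Nat.mul_le_mul_right u hvN
    omega
  have hyu : y * u ≤ v * u := Nat.mul_le_mul_right u hyv
  have hsub : v * u - y * u = (v - y) * u := (Nat.sub_mul v y u).symm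
  refine hcl hb S z hz hl ?_
  rw [← hu] at hbox hD ⊢
  have h1 := hboxA J P (F.res A True hlaw) (v * u) (y * u) σ S z k (τ' * J) _ hσ hyu hvu hk
    hMx'.1 le_rfl
    (by
      obtain ⟨M, xb, db, h2, h3⟩ := hbox
      exact ⟨M, xb, db, h2, fun ω hω i => h3 ω (hA' ω hω) i⟩)
  rw [hsub] at h1
  have h2 : CH (cpy (Pool.Agent.H49.Ent.cond F.p A True) (slam F ((v - y) * u)))
      (fun w => z w.1) (fun w => (ptm F (Q J) w.2, F.T w.1)) ≤ full P k -
      CH (Pool.Agent.H49.Ent.cond F.p A True) (F.X P) (fun ω => (z ω, F.W ω)) +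
      m * (((y * u : ℕ) : ℝ) * Real.log 2) + C + τ' * J +
      CH (Pool.Agent.H49.Ent.cond F.p A True) z (fun ω => (F.X P ω, F.W ω)) := by
    refine le_trans ?_ h1
    refine CH_mono_cond (prs_law (F.res A True hlaw) ((v - y) * u)).nonneg fun w w' _ _ h => ?_
    have e1 : F.X (Q J) w.2 = F.X (Q J) w'.2 ∧ F.W w.2 = F.W w'.2 ∧ F.T w.1 = F.T w'.1 := by
      obtain ⟨g1, g2⟩ := Prod.ext_iff.mp h
      obtain ⟨g3, g4⟩ := Prod.ext_iff.mp g1
      exact ⟨g3, g4, g2⟩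
    have e2 : F.X P w.2 = F.X P w'.2 := Pool.STK.B58.fl_fine hP e1.1
    exact Prod.ext (Prod.ext e2 e1.2.1) e1.2.2
  have h3 : τ' * J = η / 4 * J := by rw [hτ']
  linarith only [k1, hD, h2, h3]

end Pool.K3
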