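import Pool.Agent.H5.K3.BoxAB

/-!
# Lemma X: a jump of the direction costs no fullness

The label `z` contains a line of directions `e z` and the position transversal to it; the label
`zb` is a function of the line in a longer window. If the directions at two times of the longer
window are different, the longitudinal digits of the position are known from the two labels, and
the position given `zb` has the entropy of the position given `z` plus these digits.
-/

set_option autoImplicit false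

namespace Pool.K3

open Finset Real
open Pool.Agent.H49.Ent Pool.Agent.H32.Dense Pool.STK Pool.KA Pool.KSAT Pool.KS6 Pool.K2S

variable {m J : ℕ}

/-- The position and the velocity lie near lines with slopes `e z` (coordinate `i₀`). -/
def LinL {Ω S : Type} (x d : Ω → Fin m → ℝ) (A : Ω → Prop) (z : Ω → S) (i₀ : Fin m)
    (e xb db : S → Fin m → ℝ) (p w : ℕ) (c : ℝ) : Prop :=
  ∀ ω, A ω → |x ω i₀ - xb (z ω) i₀| ≤ c ∧ ∀ j,
    |(x ω j - xb (z ω) j) - e (z ω) j * (x ω i₀ - xb (z ω) i₀)| ≤ c / 2 ^ p ∧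
    |(d ω j - db (z ω) j) - e (z ω) j * (d ω i₀ - db (z ω) i₀)| ≤ c * 2 ^ w / 2 ^ p

/-- The longitudinal digits are known from the two labels. -/
theorem boxX_known (F : Fam m J) {w y l p B : ℕ} {i₀ : Fin m} {S S' : Type} {z : F.Ω → S}
    {zb : F.Ω → S'} {e xb db : S → Fin m → ℝ} {c ε : ℝ} (hc : 1 ≤ c) (hyw : y ≤ w)
    (hlin : LinL F.x F.d (fun ω => 0 < F.p ω) z i₀ e xb db p w c)
    (hε : Pe (prs F (w - y)) (fun v => ∀ j, |e (z v.1) j - e (z v.2) j| ≤ 1 / 2 ^ l) ≤ ε)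
    (hB : B + l + y ≤ p) :
    CH (prs F (w - y)) (fun v => F.X B v.2 i₀)
      (fun v => (z v.1, z v.2, (F.T v.1, F.T v.2, F.Z v.1, zb v.1))) ≤
      Real.log 2 + (Real.log (2 * (6 * c + 1) + 1) +
        ε * Real.log (2 * (2 * c * 2 ^ B + 1) + 1)) := by
  classical
  have hQ := prs_law F (w - y)
  have h2B : (0 : ℝ) < 2 ^ B := by positivity
  have key := CH_le_good hQ (fun v (_ : Fin 1) => F.X B v.2 i₀)
    (fun v => (z v.1, z v.2, (F.T v.1, F.T v.2, F.Z v.1, zb v.1)))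
    (fun v => ∀ j, |e (z v.1) j - e (z v.2) j| ≤ 1 / 2 ^ l) (6 * c + 1) (2 * c * 2 ^ B + 1) ε
    (by linarith only [hc]) (by positivity) hε ?_ ?_
  · have h2 : CH (prs F (w - y)) (fun v => F.X B v.2 i₀)
        (fun v => (z v.1, z v.2, (F.T v.1, F.T v.2, F.Z v.1, zb v.1))) =
        CH (prs F (w - y)) (fun v (_ : Fin 1) => F.X B v.2 i₀)
        (fun v => (z v.1, z v.2, (F.T v.1, F.T v.2, F.Z v.1, zb v.1))) := by
      refine CH_congr hQ.nonneg ?_ ?_ (fun _ _ _ _ h => h) (fun _ _ _ _ h => h)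
      · intro v v' _ _ h
        funext k
        exact (Prod.ext_iff.mp h).1
      · intro v v' _ _ h
        exact congrFun (Prod.ext_iff.mp h).1 0
    rw [h2]
    simpa using key
  · intro v v' hv hv' hW hBv _ _
    obtain ⟨a1, a2, a3, a4, a5, a6⟩ := prs_pos hv
    obtain ⟨b1, b2, b3, b4, b5, b6⟩ := prs_pos hv'
    simp only [Prod.mk.injEq] at hW
    obtain ⟨g1, g2, g3, g4, g5, g6⟩ := hW
    push Not at hBv
    obtain ⟨j, hj⟩ := hBv
    -- the times
    have ht : F.t v.2 - F.t v.1 = F.t v'.2 - F.t v'.1 := by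
      unfold Fam.t
      rw [g3, g4]
    have hτ : ∀ v : F.Ω × F.Ω, 0 < prs F (w - y) v → |F.t v.2 - F.t v.1| ≤ 1 / 2 ^ (w - y) := by
      intro v hv
      have hwJ : w - y ≤ J ∨ J < w - y := le_or_gt _ _
      have h1 := T1_near F (w := w - y) (prs_pos hv).2.2.2.2.2.symm
      unfold Fam.t
      rw [← sub_div, abs_div, abs_of_pos (show (0 : ℝ) < 2 ^ J by positivity),
        div_le_div_iff₀ (by positivity) (by positivity), one_mul]
      rcases hwJ with hwJ | hwJ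
      · calc |(F.T v.2 : ℝ) - F.T v.1| * 2 ^ (w - y) ≤ 2 ^ (J - (w - y)) * 2 ^ (w - y) :=
              mul_le_mul_of_nonneg_right h1 (by positivity)
          _ = 2 ^ J := by rw [← pow_add]; congr 1; omega
      · -- the windows are single times
        have e1 := (prs_pos hv).2.2.2.2.2
        unfold Fam.T1 at e1
        have e2 : J - (w - y) = 0 := by omega
        rw [e2, pow_zero, Nat.div_one, Nat.div_one] at e1
        rw [e1, sub_self, abs_zero, zero_mul]
        positivity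
    -- the position of the second sample in the frame of the first label
    have h1 : ∀ v : F.Ω × F.Ω, 0 < prs F (w - y) v →
        |(F.x v.2 j - (xb (z v.1) j + (F.t v.2 - F.t v.1) * db (z v.1) j)) -
          e (z v.1) j * (F.x v.2 i₀ - (xb (z v.1) i₀ + (F.t v.2 - F.t v.1) * db (z v.1) i₀))| ≤
          2 * c * 2 ^ y / 2 ^ p := by
      intro v hv
      obtain ⟨a1, a2, a3, a4, a5, a6⟩ := prs_pos hv
      obtain ⟨-, c2⟩ := hlin v.1 a1
      obtain ⟨c3, c4⟩ := c2 j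
      have e1 : ∀ i, F.x v.2 i = F.x v.1 i + (F.t v.2 - F.t v.1) * F.d v.1 i := by
        intro i
        unfold Fam.x
        rw [a3, a4]
        ring
      have e2 : (F.x v.2 j - (xb (z v.1) j + (F.t v.2 - F.t v.1) * db (z v.1) j)) -
          e (z v.1) j * (F.x v.2 i₀ - (xb (z v.1) i₀ + (F.t v.2 - F.t v.1) * db (z v.1) i₀)) =
          ((F.x v.1 j - xb (z v.1) j) - e (z v.1) j * (F.x v.1 i₀ - xb (z v.1) i₀)) +
          (F.t v.2 - F.t v.1) * ((F.d v.1 j - db (z v.1) j) -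
            e (z v.1) j * (F.d v.1 i₀ - db (z v.1) i₀)) := by
        rw [e1, e1]
        ring
      rw [e2]
      refine (abs_add_le _ _).trans ?_
      rw [abs_mul]
      have e3 : |F.t v.2 - F.t v.1| * |(F.d v.1 j - db (z v.1) j) -
          e (z v.1) j * (F.d v.1 i₀ - db (z v.1) i₀)| ≤ 1 / 2 ^ (w - y) * (c * 2 ^ w / 2 ^ p) :=
        mul_le_mul (hτ v hv) c4 (abs_nonneg _) (by positivity)
      have e4 : (1 : ℝ) / 2 ^ (w - y) * (c * 2 ^ w / 2 ^ p) = c * 2 ^ y / 2 ^ p := by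
        have : (2 : ℝ) ^ w = 2 ^ (w - y) * 2 ^ y := by rw [← pow_add]; congr 1; omega
        rw [this]
        field_simp
      rw [e4] at e3
      have e5 : c / 2 ^ p ≤ c * 2 ^ y / 2 ^ p := by
        refine div_le_div_of_nonneg_right ?_ (by positivity)
        have : (1 : ℝ) ≤ 2 ^ y := one_le_pow₀ (by norm_num)
        nlinarith only [this, hc]
      have e6 : 2 * c * 2 ^ y / 2 ^ p = c * 2 ^ y / 2 ^ p + c * 2 ^ y / 2 ^ p := by ring
      rw [e6]
      linarith only [c3, e3, e5]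
    have k1 := h1 v hv
    have k2 := h1 v' hv'
    rw [← g1, ← ht] at k2
    -- the position of the second sample in the frame of the second label
    have k3 := ((hlin v.2 a2).2 j).1
    have k4 := ((hlin v'.2 b2).2 j).1
    rw [← g2] at k4
    obtain ⟨X, hX⟩ : ∃ X, X = F.x v.2 i₀ - F.x v'.2 i₀ := ⟨_, rfl⟩
    obtain ⟨Y, hY⟩ : ∃ Y, Y = F.x v.2 j - F.x v'.2 j := ⟨_, rfl⟩
    have k5 : |Y - e (z v.1) j * X| ≤ 2 * (2 * c * 2 ^ y / 2 ^ p) := by
      have e1 : Y - e (z v.1) j * X = ((F.x v.2 j - (xb (z v.1) j + (F.t v.2 - F.t v.1) *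
          db (z v.1) j)) - e (z v.1) j * (F.x v.2 i₀ - (xb (z v.1) i₀ + (F.t v.2 - F.t v.1) *
          db (z v.1) i₀))) - ((F.x v'.2 j - (xb (z v.1) j + (F.t v.2 - F.t v.1) *
          db (z v.1) j)) - e (z v.1) j * (F.x v'.2 i₀ - (xb (z v.1) i₀ + (F.t v.2 - F.t v.1) *
          db (z v.1) i₀))) := by rw [hX, hY]; ring
      rw [e1]
      refine (abs_sub _ _).trans ?_
      linarith only [k1, k2]
    have k6 : |Y - e (z v.2) j * X| ≤ 2 * (c / 2 ^ p) := by
      have e1 : Y - e (z v.2) j * X = ((F.x v.2 j - xb (z v.2) j) - e (z v.2) j *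
          (F.x v.2 i₀ - xb (z v.2) i₀)) - ((F.x v'.2 j - xb (z v.2) j) - e (z v.2) j *
          (F.x v'.2 i₀ - xb (z v.2) i₀)) := by rw [hX, hY]; ring
      rw [e1]
      refine (abs_sub _ _).trans ?_
      linarith only [k3, k4]
    have hy1 : (1 : ℝ) ≤ 2 ^ y := one_le_pow₀ (by norm_num)
    have k7 : |e (z v.1) j - e (z v.2) j| * |X| ≤ 6 * c * 2 ^ y / 2 ^ p := by
      rw [← abs_mul]
      have e1 : (e (z v.1) j - e (z v.2) j) * X = (Y - e (z v.2) j * X) -
          (Y - e (z v.1) j * X) := by ring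
      rw [e1]
      refine (abs_sub _ _).trans ?_
      have e2 : c / 2 ^ p ≤ c * 2 ^ y / 2 ^ p := by
        refine div_le_div_of_nonneg_right ?_ (by positivity)
        nlinarith only [hy1, hc]
      have e3 : 6 * c * 2 ^ y / 2 ^ p = 2 * (2 * c * 2 ^ y / 2 ^ p) + 2 * (c * 2 ^ y / 2 ^ p) := by
        ring
      rw [e3]
      linarith only [k5, k6, e2]
    have k8 : (1 : ℝ) / 2 ^ l * |X| ≤ 6 * c * 2 ^ y / 2 ^ p :=
      (mul_le_mul_of_nonneg_right hj.le (abs_nonneg _)).trans k7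
    have k9 : 2 ^ B * |X| ≤ 6 * c := by
      have e1 : (2 : ℝ) ^ B * 2 ^ l * 2 ^ y ≤ 2 ^ p := by
        rw [← pow_add, ← pow_add]
        exact pow_le_pow_right₀ (by norm_num) hB
      have e2 : |X| ≤ 2 ^ l * (6 * c * 2 ^ y / 2 ^ p) := by
        have := mul_le_mul_of_nonneg_left k8 (show (0 : ℝ) ≤ 2 ^ l by positivity)
        rw [← mul_assoc, mul_one_div_cancel (by positivity), one_mul] at this
        exact this
      calc (2 : ℝ) ^ B * |X| ≤ 2 ^ B * (2 ^ l * (6 * c * 2 ^ y / 2 ^ p)) :=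
            mul_le_mul_of_nonneg_left e2 h2B.le
        _ = 6 * c * ((2 ^ B * 2 ^ l * 2 ^ y) / 2 ^ p) := by ring
        _ ≤ 6 * c * 1 := by
            refine mul_le_mul_of_nonneg_left ?_ (by positivity)
            rw [div_le_one (by positivity)]
            exact e1
        _ = 6 * c := mul_one _
    have f1 := Int.floor_le ((2 : ℝ) ^ B * F.x v.2 i₀)
    have f2 := Int.lt_floor_add_one ((2 : ℝ) ^ B * F.x v.2 i₀)
    have f3 := Int.floor_le ((2 : ℝ) ^ B * F.x v'.2 i₀)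
    have f4 := Int.lt_floor_add_one ((2 : ℝ) ^ B * F.x v'.2 i₀)
    have f5 : |(2 : ℝ) ^ B * F.x v.2 i₀ - 2 ^ B * F.x v'.2 i₀| ≤ 6 * c := by
      rw [← mul_sub, ← hX, abs_mul, abs_of_pos h2B]
      exact k9
    change |((⌊(2 : ℝ) ^ B * F.x v.2 i₀⌋ - ⌊(2 : ℝ) ^ B * F.x v'.2 i₀⌋ : ℤ) : ℝ)| ≤ 6 * c + 1
    rw [abs_le] at f5 ⊢
    push_cast
    constructor <;> linarith [f5.1, f5.2]
  · intro v v' hv hv' hW _
    obtain ⟨-, a2, -⟩ := prs_pos hv
    obtain ⟨-, b2, -⟩ := prs_pos hv'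
    simp only [Prod.mk.injEq] at hW
    have g2 := hW.2.1
    have k1 := (hlin v.2 a2).1
    have k2 := (hlin v'.2 b2).1
    rw [← g2] at k2
    have k3 : |F.x v.2 i₀ - F.x v'.2 i₀| ≤ 2 * c := by
      have e1 : F.x v.2 i₀ - F.x v'.2 i₀ = (F.x v.2 i₀ - xb (z v.2) i₀) -
        (F.x v'.2 i₀ - xb (z v.2) i₀) := by ring
      rw [e1]
      refine (abs_sub _ _).trans ?_
      linarith only [k1, k2]
    have f1 := Int.floor_le ((2 : ℝ) ^ B * F.x v.2 i₀)
    have f2 := Int.lt_floor_add_one ((2 : ℝ) ^ B * F.x v.2 i₀)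
    have f3 := Int.floor_le ((2 : ℝ) ^ B * F.x v'.2 i₀)
    have f4 := Int.lt_floor_add_one ((2 : ℝ) ^ B * F.x v'.2 i₀)
    have f5 : |(2 : ℝ) ^ B * F.x v.2 i₀ - 2 ^ B * F.x v'.2 i₀| ≤ 2 * c * 2 ^ B := by
      rw [← mul_sub, abs_mul, abs_of_pos h2B]
      have := mul_le_mul_of_nonneg_left k3 h2B.le
      linarith only [this]
    change |((⌊(2 : ℝ) ^ B * F.x v.2 i₀⌋ - ⌊(2 : ℝ) ^ B * F.x v'.2 i₀⌋ : ℤ) : ℝ)| ≤
      2 * c * 2 ^ B + 1
    rw [abs_le] at f5 ⊢
    push_cast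
    constructor <;> linarith [f5.1, f5.2]

/-- **Lemma X.** -/
theorem boxX (F : Fam m J) {w y l p B P : ℕ} {i₀ : Fin m} {S S' : Type} {z : F.Ω → S}
    {zb : F.Ω → S'} {e xb db : S → Fin m → ℝ} {c ε τ : ℝ} (hc : 1 ≤ c) (hyw : y ≤ w)
    (hwJ : w ≤ J) (hlin : LinL F.x F.d (fun ω => 0 < F.p ω) z i₀ e xb db p w c)
    (hε : Pe (prs F (w - y)) (fun v => ∀ j, |e (z v.1) j - e (z v.2) j| ≤ 1 / 2 ^ l) ≤ ε)
    (hB : B + l + y ≤ p) (hBP : B ≤ P) (hτ : F.Tm τ) (hzb : Det F.p (slam F (w - y)) zb) :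
    CH F.p (fun ω => F.X B ω i₀) (fun ω => (z ω, zb ω, F.W ω)) +
      CH F.p (F.X P) (fun ω => (z ω, F.W ω)) ≤
    CH F.p (F.X P) (fun ω => (zb ω, F.W ω)) + CH F.p zb (fun ω => (z ω, F.W ω)) +
      2 * CH F.p z (fun ω => (F.X P ω, F.W ω)) + 2 * (τ + Real.log 5) +
      (Real.log 2 + (Real.log (2 * (6 * c + 1) + 1) +
        ε * Real.log (2 * (2 * c * 2 ^ B + 1) + 1))) := by
  classical
  have hQ := prs_law F (w - y)
  have h0 := hQ.nonneg
  have hp := F.isLaw
  obtain ⟨V, hV⟩ : ∃ V : F.Ω × F.Ω → ℕ × ℕ × F.ζ × S',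
    V = fun v => (F.T v.1, F.T v.2, F.Z v.1, zb v.1) := ⟨_, rfl⟩
  have hzb' : ∀ v : F.Ω × F.Ω, 0 < prs F (w - y) v → zb v.1 = zb v.2 := by
    intro v hv
    obtain ⟨a1, a2, a3, a4, a5, a6⟩ := prs_pos hv
    refine hzb _ _ a1 a2 ?_
    unfold slam Fam.l
    rw [a3, a4, a5, a6]
  have hx : CH (prs F (w - y)) (fun v => F.X P v.2) V =
      CH (prs F (w - y)) (fun v => F.X P v.1) V := by
    have h1 := (prs_swap F (w - y)).CH (fun v => F.X P v.1) V
    rw [← h1]
    refine CH_congr h0 (fun _ _ _ _ h => (Prod.ext_iff.mp h).1)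
      (fun _ _ _ _ h => (Prod.ext_iff.mp h).1) ?_ ?_
    · intro v v' hv hv' h
      have a3 := (prs_pos hv).2.2.2.2.1
      have b3 := (prs_pos hv').2.2.2.2.1
      have a7 := hzb' v hv
      have b7 := hzb' v' hv'
      simp only [hV, Prod.mk.injEq, Prod.fst_swap, Prod.snd_swap] at h ⊢
      exact ⟨h.2.1, h.1, a3.symm.trans (h.2.2.1.trans b3), a7.symm.trans (h.2.2.2.trans b7)⟩
    · intro v v' hv hv' h
      have a3 := (prs_pos hv).2.2.2.2.1
      have b3 := (prs_pos hv').2.2.2.2.1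
      have a7 := hzb' v hv
      have b7 := hzb' v' hv'
      simp only [hV, Prod.mk.injEq, Prod.fst_swap, Prod.snd_swap] at h ⊢
      exact ⟨h.2.1, h.1, a3.trans (h.2.2.1.trans b3.symm), a7.trans (h.2.2.2.trans b7.symm)⟩
  have a1 : CH (prs F (w - y)) (fun v => z v.1) (fun v => (F.X P v.1, V v)) ≤
      CH F.p z (fun ω => (F.X P ω, F.W ω)) := by
    rw [← (prs_fst F (w - y)).CH z (fun ω => (F.X P ω, F.W ω))]
    refine CH_mono_cond h0 fun v v' _ _ h => ?_
    simp only [hV, Prod.mk.injEq, Fam.W] at h ⊢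
    tauto
  have a2 : CH (prs F (w - y)) (fun v => z v.2) (fun v => (F.X P v.2, V v)) ≤
      CH F.p z (fun ω => (F.X P ω, F.W ω)) := by
    rw [← (prs_snd F (w - y)).CH z (fun ω => (F.X P ω, F.W ω))]
    refine CH_mono_cond h0 fun v v' hv hv' h => ?_
    have a3 := (prs_pos hv).2.2.2.2.1
    have b3 := (prs_pos hv').2.2.2.2.1
    simp only [hV, Prod.mk.injEq, Fam.W] at h ⊢
    exact ⟨h.1, h.2.2.1, a3.symm.trans (h.2.2.2.1.trans b3)⟩
  have hknown : CH (prs F (w - y)) (fun v => F.X B v.2 i₀) (fun v => (z v.1, z v.2, V v)) ≤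
      (Real.log 2 + (Real.log (2 * (6 * c + 1) + 1) +
        ε * Real.log (2 * (2 * c * 2 ^ B + 1) + 1))) := by
    rw [hV]
    exact boxX_known F (zb := zb) hc hyw hlin hε hB
  have hT1 : ∀ {U : Type} (Y : F.Ω → U), Det F.p (fun ω => (Y ω, F.W ω)) (F.T1 (w - y)) := by
    intro U Y ω ω' _ _ h
    have h2 : F.T ω = F.T ω' := (Prod.ext_iff.mp (Prod.ext_iff.mp h).2).1
    unfold Fam.T1
    rw [h2]
  -- the block given the second label
  have a4 : CH F.p (fun ω => F.X B ω i₀) (fun ω => (z ω, zb ω, F.W ω)) - (τ + Real.log 5) ≤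
      CH (prs F (w - y)) (fun v => F.X B v.2 i₀) (fun v => (z v.2, V v)) := by
    have h1 := prs_time' F (w := w - y) (by omega) hτ (fun ω => F.X B ω i₀)
      (fun ω => ((z ω, zb ω), F.W ω)) (hT1 fun ω => (z ω, zb ω))
    have h2 : CH F.p (fun ω => F.X B ω i₀) (fun ω => ((z ω, zb ω), F.W ω)) =
        CH F.p (fun ω => F.X B ω i₀) (fun ω => (z ω, zb ω, F.W ω)) := by
      refine CH_congr hp.nonneg (fun _ _ _ _ h => (Prod.ext_iff.mp h).1)
        (fun _ _ _ _ h => (Prod.ext_iff.mp h).1) ?_ ?_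
      · intro ω ω' _ _ h
        simp only [Prod.mk.injEq] at h ⊢
        tauto
      · intro ω ω' _ _ h
        simp only [Prod.mk.injEq] at h ⊢
        tauto
    rw [h2] at h1
    refine h1.trans ?_
    refine CH_mono_cond h0 fun v v' hv hv' h => ?_
    have a3 := (prs_pos hv).2.2.2.2.1
    have b3 := (prs_pos hv').2.2.2.2.1
    have a7 := hzb' v hv
    have b7 := hzb' v' hv'
    simp only [hV, Prod.mk.injEq, Fam.W] at h ⊢
    exact ⟨h.2.1.1, h.1, h.2.2.1, a3.trans (h.2.2.2.trans b3.symm),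
      a7.trans (h.2.1.2.trans b7.symm)⟩
  have hxj := xj h0 (fun v : F.Ω × F.Ω => F.X P v.1) (fun v => F.X P v.2) (fun v => z v.1)
    (fun v => z v.2) (fun v => F.X B v.2 i₀) V _ _ _ a1 a2 hx
    (fun v v' _ _ h => by
      have e1 : F.X P v.2 = F.X P v'.2 := (Prod.ext_iff.mp h).1
      have e2 : F.X B v.2 = F.X B v'.2 := Pool.STK.B58.fl_fine hBP e1
      exact congrFun e2 i₀) hknown a4
  -- the position given the label of the longer window
  have a5 : CH (prs F (w - y)) (fun v => F.X P v.1) V ≤ CH F.p (F.X P) (fun ω => (zb ω, F.W ω)) := by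
    rw [← (prs_fst F (w - y)).CH (F.X P) (fun ω => (zb ω, F.W ω))]
    refine CH_mono_cond h0 fun v v' _ _ h => ?_
    simp only [hV, Prod.mk.injEq, Fam.W] at h ⊢
    tauto
  -- the position given both labels
  have a6 : CH F.p (F.X P) (fun ω => ((z ω, zb ω), F.W ω)) - (τ + Real.log 5) ≤
      CH (prs F (w - y)) (fun v => F.X P v.1) (fun v => (z v.1, V v)) := by
    refine (prs_time F (w := w - y) (by omega) hτ (F.X P)
      (fun ω => ((z ω, zb ω), F.W ω)) (hT1 fun ω => (z ω, zb ω))).trans ?_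
    refine CH_mono_cond h0 fun v v' hv hv' h => ?_
    simp only [hV, Prod.mk.injEq, Fam.W] at h ⊢
    tauto
  have a7 : CH F.p (F.X P) (fun ω => (z ω, F.W ω)) ≤ CH F.p zb (fun ω => (z ω, F.W ω)) +
      CH F.p (F.X P) (fun ω => ((z ω, zb ω), F.W ω)) := by
    have h1 := CH_le_add hp.nonneg (F.X P) zb (fun ω => (z ω, F.W ω))
    have h2 : CH F.p (F.X P) (fun ω => (zb ω, (z ω, F.W ω))) =
        CH F.p (F.X P) (fun ω => ((z ω, zb ω), F.W ω)) := by
      refine CH_congr hp.nonneg (fun _ _ _ _ h => (Prod.ext_iff.mp h).1)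
        (fun _ _ _ _ h => (Prod.ext_iff.mp h).1) ?_ ?_
      · intro ω ω' _ _ h
        simp only [Prod.mk.injEq] at h ⊢
        tauto
      · intro ω ω' _ _ h
        simp only [Prod.mk.injEq] at h ⊢
        tauto
    linarith only [h1, h2]
  linarith only [hxj, a5, a6, a7]

/-- **Lemma X (claim).** Scales are multiples of `J / N`: `v` is the window of the label `z`, `p` the
precision of its position transversal to the direction, `v - y` the longer window of the label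
`zb`. If the direction is not known from the windows `v - y` to precision `l`, the position given
`zb` has at least the entropy of the position given `z` plus that of the longitudinal digits up to
`B = p - l - y` given both labels. -/
def LXStmt : Prop :=
  ∀ (m : ℕ) (a R : ℝ), 1 ≤ a → 0 < R → ∀ η c : ℝ, 0 < η → 1 ≤ c →
    ∀ (N : ℕ) (i₀ : Fin m) (p v l y B : ℕ), 0 < N → y ≤ v → v ≤ N → l + v < p → B + l + y ≤ p →
    Claim (m := m) a R (fun J F A => ¬ Cn F i₀ (l * (J / N)) ((v - y) * (J / N)) A →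
      ∀ (S : Type) (z : F.Ω → S) (e xb db : S → Fin m → ℝ),
      (∃ φ : (Fin m → ℤ) × (ℕ × F.ζ) → S, ∀ ω, A ω → z ω = φ (Fam.pt F ω)) →
      LinL F.x F.d A z i₀ e xb db (p * (J / N)) (v * (J / N)) c →
      ∀ (S' : Type) (zb : F.Ω → S'),
      (∃ ψ : ((Fin m → ℝ) × (Fin m → ℝ)) × F.ζ × ℕ → S',
        ∀ ω, A ω → zb ω = ψ (slam F ((v - y) * (J / N)) ω)) →
      ∀ P : ℕ, B * (J / N) ≤ P → P ≤ J →
      CH (Pool.Agent.H49.Ent.cond F.p A True) (fun ω => F.X (B * (J / N)) ω i₀)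
          (fun ω => (z ω, zb ω, F.W ω)) +
        CH (Pool.Agent.H49.Ent.cond F.p A True) (F.X P) (fun ω => (z ω, F.W ω)) ≤
      CH (Pool.Agent.H49.Ent.cond F.p A True) (F.X P) (fun ω => (zb ω, F.W ω)) +
        CH (Pool.Agent.H49.Ent.cond F.p A True) zb (fun ω => (z ω, F.W ω)) +
        2 * CH (Pool.Agent.H49.Ent.cond F.p A True) z (fun ω => (F.X P ω, F.W ω)) + η * J)

/-- Events which hold on the support only. -/
theorem Pe_le_pos {Ω : Type} [Fintype Ω] {q : Ω → ℝ} (hq : IsLaw q) {A B : Ω → Prop}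
    (h : ∀ ω, 0 < q ω → A ω → B ω) : Pe q A ≤ Pe q B := by
  classical
  rw [Pe_eq, Pe_eq]
  refine Finset.sum_le_sum fun ω _ => ?_
  by_cases h0 : q ω = 0
  · rw [h0]; simp
  have hω : 0 < q ω := lt_of_le_of_ne (hq.nonneg ω) (Ne.symm h0)
  by_cases hA : A ω
  · rw [if_pos hA, if_pos (h ω hω hA)]
  · rw [if_neg hA]
    split_ifs
    exacts [hω.le, le_rfl]

/-- `exp (-κ J) J` is bounded. -/
theorem exp_mul_le {κ J : ℝ} (hκ : 0 < κ) : Real.exp (-(κ * J)) * J ≤ 1 / κ := by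
  have h4 := Real.add_one_le_exp (κ * J)
  have h5 : κ * J ≤ Real.exp (κ * J) := by linarith
  rw [Real.exp_neg, inv_mul_le_iff₀ (Real.exp_pos _), mul_one_div, le_div_iff₀ hκ]
  linarith

theorem lx_thm : LXStmt := by
  classical
  intro m a R ha hR η c hη hc N i₀ p v l y B hN0 hyv hvN hlv hB
  have hNr : (0 : ℝ) < N := by exact_mod_cast hN0
  refine Claim.one ⟨1, fun J F _ =>
    RotU i₀ (1 / 2 ^ (l * (J / N))) (1 / 2 ^ (l * (J / N))) (Fam.pt F)
      (slam F ((v - y) * (J / N))) F.d, fun J F i => RotU.hered _ _ _ _ _ _⟩ fun κ hκ => ?_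
  obtain ⟨τ', hτ'⟩ : ∃ τ', τ' = η / 8 := ⟨_, rfl⟩
  have hτ'0 : 0 < τ' := by rw [hτ']; positivity
  obtain ⟨τ, hτ⟩ : ∃ τ, τ = τ' / (6 * (1 + a)) := ⟨_, rfl⟩
  have hτ0 : 0 < τ := by rw [hτ]; positivity
  obtain ⟨Cst, hCst⟩ : ∃ Cst : ℝ, Cst = 2 * Real.log 5 + (Real.log 2 +
    (Real.log (2 * (6 * c + 1) + 1) + (1 / κ + Real.log (4 * c + 3)))) := ⟨_, rfl⟩
  have hl5 : 0 ≤ Real.log 5 := Real.log_nonneg (by norm_num)
  have hl2 : 0 ≤ Real.log 2 := Real.log_nonneg (by norm_num)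
  have hlc1 : 0 ≤ Real.log (2 * (6 * c + 1) + 1) := Real.log_nonneg (by linarith only [hc])
  have hlc2 : 0 ≤ Real.log (4 * c + 3) := Real.log_nonneg (by linarith only [hc])
  have hCst0 : 0 ≤ Cst := by
    rw [hCst]
    positivity
  obtain ⟨u₀, hu₀⟩ : ∃ u₀ : ℕ, c < 2 ^ u₀ := pow_unbounded_of_one_lt c (by norm_num)
  obtain ⟨J₁, hJ₁⟩ := exists_nat_gt (Cst / (η / 4) + N * (u₀ + 1))
  refine ⟨τ, hτ0, J₁, ?_⟩
  intro J hJ F A hS hSb hn S z e xb db hz hlin S' zb hzb P hBP hPJ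
  have hJr : Cst / (η / 4) + N * (u₀ + 1) < J := hJ₁.trans_le (by exact_mod_cast hJ)
  have t1 : 0 ≤ Cst / (η / 4) := by positivity
  have t2 : (0 : ℝ) ≤ N * (u₀ + 1) := by positivity
  have hJ0 : (0 : ℝ) < J := by linarith only [hJr, t1, t2]
  have k1 : Cst < η / 4 * J := by
    have : Cst / (η / 4) < J := by linarith only [hJr, t2]
    rw [div_lt_iff₀ (by positivity)] at this
    linarith only [this]
  obtain ⟨hTr, hMx, hRb, hPA⟩ := hS
  have hp := F.isLaw
  have hA0 : 0 < Pe F.p A := lt_of_lt_of_le (Real.exp_pos _) hPA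
  obtain ⟨hlaw, -, hMx', -⟩ := max_res F ha hτ0.le hτ0.le hTr hMx hRb A hPA
  have e7 : (1 + a) * (5 * τ + τ) = τ' := by
    rw [hτ]
    field_simp
    ring
  rw [e7] at hMx'
  have hA' : ∀ ω, 0 < (F.res A True hlaw).p ω → A ω := fun ω hω => by
    have := ((cond_pos_iff hp.nonneg A True ω).1 hω).2
    simpa using this
  obtain ⟨u, hu⟩ : ∃ u, u = J / N := ⟨_, rfl⟩
  have hs0 := hSb 0
  simp only [← hu] at hs0
  rw [← hu] at hn hlin hzb hBP ⊢
  have hu1 : N * u ≤ J := by rw [hu]; exact Nat.mul_div_le J N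
  have hu2 : (J : ℝ) < N * (u + 1) := by
    have := Nat.lt_mul_div_succ J hN0
    rw [← hu] at this
    exact_mod_cast this
  have hu3 : u₀ ≤ u := by
    have h1 : (N : ℝ) * (u₀ + 1) < N * (u + 1) := by linarith only [hJr, t1, hu2]
    have h2 := lt_of_mul_lt_mul_left h1 hNr.le
    have h3 : (u₀ : ℝ) < u := by linarith only [h2]
    exact le_of_lt (by exact_mod_cast h3)
  have hvu : v * u ≤ J := by
    have : v * u ≤ N * u := Nat.mul_le_mul_right u hvN
    omega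
  have hyu : y * u ≤ v * u := Nat.mul_le_mul_right u hyv
  have hsub : v * u - y * u = (v - y) * u := (Nat.sub_mul v y u).symm
  -- the frames
  obtain ⟨φ, hφ⟩ := hz
  have hprec : c * 2 ^ (v * u) / 2 ^ (p * u) ≤ (1 : ℝ) / 2 ^ (l * u) := by
    have h1 : (c : ℝ) ≤ 2 ^ u := by
      have h2 : (2 : ℝ) ^ u₀ ≤ 2 ^ u := pow_le_pow_right₀ (by norm_num) hu3
      linarith only [hu₀, h2]
    rw [div_le_div_iff₀ (by positivity) (by positivity), one_mul]
    calc c * 2 ^ (v * u) * 2 ^ (l * u) ≤ 2 ^ u * 2 ^ (v * u) * 2 ^ (l * u) := by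
          have h3 : (0 : ℝ) < 2 ^ (v * u) * 2 ^ (l * u) := by positivity
          nlinarith only [h1, h3]
      _ = 2 ^ ((l + v + 1) * u) := by
          rw [← pow_add, ← pow_add]; congr 1; ring
      _ ≤ 2 ^ (p * u) := pow_le_pow_right₀ (by norm_num) (Nat.mul_le_mul_right u hlv)
  have hon : OnL i₀ (1 / 2 ^ (l * u)) (Fam.pt F) F.d A (fun q => e (φ q))
      (fun q j => db (φ q) j - e (φ q) j * db (φ q) i₀) := by
    intro ω hω j
    have h1 := ((hlin ω hω).2 j).2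
    rw [hφ ω hω] at h1
    have e1 : F.d ω j - e (φ (Fam.pt F ω)) j * F.d ω i₀ -
        (db (φ (Fam.pt F ω)) j - e (φ (Fam.pt F ω)) j * db (φ (Fam.pt F ω)) i₀) =
        (F.d ω j - db (φ (Fam.pt F ω)) j) - e (φ (Fam.pt F ω)) j *
          (F.d ω i₀ - db (φ (Fam.pt F ω)) i₀) := by ring
    rw [e1]
    exact h1.trans hprec
  have hbad : Pe (prs (F.res A True hlaw) (v * u - y * u))
      (fun w => ∀ j, |e (z w.1) j - e (z w.2) j| ≤ 1 / 2 ^ (l * u)) ≤ Real.exp (-(κ * J)) := by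
    have h1 : Pe (prs (F.res A True hlaw) ((v - y) * u)) (fun w => ∀ j,
        |e (φ (Fam.pt F w.1)) j - e (φ (Fam.pt F w.2)) j| ≤ 1 / 2 ^ (l * u)) <
        Real.exp (-(κ * J)) :=
      hs0.rotU_cpy_lt hp hA0 hn hon (wn' := slam F ((v - y) * u)) (φ := id) (fun _ => rfl)
    rw [hsub]
    refine le_trans (Pe_le_pos (prs_law _ _) fun w hw hB j => ?_) h1.le
    obtain ⟨a1, a2, -⟩ := prs_pos hw
    have e1 : z w.1 = φ (Fam.pt F w.1) := hφ _ (hA' _ a1)
    have e2 : z w.2 = φ (Fam.pt F w.2) := hφ _ (hA' _ a2)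
    rw [← e1, ← e2]
    exact hB j
  have hX := boxX (F.res A True hlaw) (w := v * u) (y := y * u) (l := l * u) (p := p * u)
    (B := B * u) (P := P) (i₀ := i₀) (z := z) (zb := zb) (e := e) (xb := xb) (db := db) (c := c)
    (ε := Real.exp (-(κ * J))) (τ := τ' * J) hc hyu hvu
    (fun ω hω => hlin ω (hA' ω hω)) hbad (by
      have := Nat.mul_le_mul_right u hB
      rw [add_mul, add_mul] at this
      exact this) hBP hMx'.1 (by
      obtain ⟨ψ, hψ⟩ := hzb
      rw [hsub]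
      intro ω ω' hω hω' h
      rw [hψ ω (hA' ω hω), hψ ω' (hA' ω' hω')]
      have h2 : slam F ((v - y) * u) ω = slam F ((v - y) * u) ω' := h
      rw [h2])
  have hlog : Real.exp (-(κ * J)) * Real.log (2 * (2 * c * 2 ^ (B * u) + 1) + 1) ≤
      1 / κ + Real.log (4 * c + 3) := by
    have hBJ : ((B * u : ℕ) : ℝ) ≤ J := by exact_mod_cast hBP.trans hPJ
    have h1 : Real.log (2 * (2 * c * 2 ^ (B * u) + 1) + 1) ≤ J + Real.log (4 * c + 3) := by
      have h2 : (2 * (2 * c * 2 ^ (B * u) + 1) + 1 : ℝ) ≤ 2 ^ (B * u) * (4 * c + 3) := by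
        have : (1 : ℝ) ≤ 2 ^ (B * u) := one_le_pow₀ (by norm_num)
        nlinarith only [this]
      have h3 := Real.log_le_log (by positivity) h2
      rw [Real.log_mul (by positivity) (by positivity), Real.log_pow] at h3
      have h4 : ((B * u : ℕ) : ℝ) * Real.log 2 ≤ J * 1 := by
        refine mul_le_mul hBJ ?_ hl2 hJ0.le
        have := Real.log_two_lt_d9
        linarith only [this]
      linarith only [h3, h4]
    have h3 := exp_mul_le (J := (J : ℝ)) hκ
    have h4 : Real.exp (-(κ * J)) ≤ 1 := by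
      rw [Real.exp_le_one_iff]
      have : 0 < κ * J := by positivity
      linarith only [this]
    calc _ ≤ Real.exp (-(κ * J)) * (J + Real.log (4 * c + 3)) :=
          mul_le_mul_of_nonneg_left h1 (Real.exp_pos _).le
      _ = Real.exp (-(κ * J)) * J + Real.exp (-(κ * J)) * Real.log (4 * c + 3) := by ring
      _ ≤ 1 / κ + 1 * Real.log (4 * c + 3) :=
          add_le_add h3 (mul_le_mul_of_nonneg_right h4 hlc2)
      _ = _ := by ring
  have hX' : CH (Pool.Agent.H49.Ent.cond F.p A True) (fun ω => F.X (B * u) ω i₀)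
          (fun ω => (z ω, zb ω, F.W ω)) +
        CH (Pool.Agent.H49.Ent.cond F.p A True) (F.X P) (fun ω => (z ω, F.W ω)) ≤
      CH (Pool.Agent.H49.Ent.cond F.p A True) (F.X P) (fun ω => (zb ω, F.W ω)) +
        CH (Pool.Agent.H49.Ent.cond F.p A True) zb (fun ω => (z ω, F.W ω)) +
        2 * CH (Pool.Agent.H49.Ent.cond F.p A True) z (fun ω => (F.X P ω, F.W ω)) +
        2 * (τ' * J + Real.log 5) +
      (Real.log 2 + (Real.log (2 * (6 * c + 1) + 1) +
        Real.exp (-(κ * J)) * Real.log (2 * (2 * c * 2 ^ (B * u) + 1) + 1))) := hX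
  have h3 : τ' * J = η / 8 * J := by rw [hτ']
  have h4 : 0 < η * J := by positivity
  rw [h3] at hX'
  rw [hCst] at k1
  linarith only [hCst, hCst0, k1, hlog, hX']

end Pool.K3
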