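import Pool.Agent.H5.K3.BoxB

/-!
# Lemmas A and B: planks in which the position is nearly full have no jumps of the direction
-/

set_option autoImplicit false

namespace Pool.K3

open Finset Real
open Pool.Agent.H49.Ent Pool.Agent.H32.Dense Pool.STK Pool.KA Pool.KSAT Pool.KS6 Pool.K2S

/-- **Lemmas A and B (claim).** The window of the label is `v`, its box has precisions `k`, it
determines the line of directions to precision `j`; the position at resolution `P` is full in the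
box up to a deficit, and the label is visible from it up to a small error; then on the windows
`v - y` the direction is conserved to precision `j - b`, if `(R / a) b` is larger than the deficit
plus `m y log 2` plus the error. -/
def LABStmt : Prop :=
  ∀ (m : ℕ) (a R : ℝ), 1 ≤ a → 0 < R → UBa m a R → ∀ h₁ η c : ℝ, 0 < h₁ → 0 < η → 1 ≤ c →
    ∀ (N : ℕ) (i₀ : Fin m) (σ : Fin m → Fin m), Function.Surjective σ →
    ∀ j b v y : ℕ, b ≤ j → b < N → v ≤ N → y ≤ v →
    Claim (m := m) a R (fun J F A => Lb F i₀ ⌊h₁ * J⌋₊ A →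
      ∀ (S : Type) (z : F.Ω → S) (k : Fin m → ℕ) (P : ℕ), P ≤ J → (∀ i, k i ≤ P) →
      (∃ φ : (Fin m → ℤ) × (ℕ × F.ζ) → S, ∀ ω, A ω → z ω = φ (Fam.pt F ω)) →
      BoxL F.x F.d A z σ k (v * (J / N)) c →
      LineU i₀ (1 / 2 ^ (j * (J / N))) z F.d A →
      full P k - CH (Pool.Agent.H49.Ent.cond F.p A True) (F.X P) (fun ω => (z ω, F.W ω)) +
        CH (Pool.Agent.H49.Ent.cond F.p A True) z (fun ω => (F.X P ω, F.W ω)) +
        m * (((y * (J / N) : ℕ) : ℝ) * Real.log 2) ≤ R / a * ((b * (J / N) : ℕ) : ℝ) - η * J →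
      Cn F i₀ ((j - b) * (J / N)) ((v - y) * (J / N)) A)

theorem lab_thm : LABStmt := by
  classical
  intro m a R ha hR hU h₁ η c hh₁ hη hc N i₀ σ hσ j b v y hbj hbN hvN hyv
  have hN0 : 0 < N := by omega
  obtain ⟨C, hC, hboxA⟩ := boxA m c hc
  have hB := lb_thm m a R ha hR hU h₁ (η / 2) hh₁ (by positivity) N i₀ j b (v - y) hbj hbN
    (by omega)
  refine Claim.mp ?_ hB
  obtain ⟨τ', hτ'⟩ : ∃ τ', τ' = η / 4 := ⟨_, rfl⟩
  have hτ'0 : 0 < τ' := by rw [hτ']; positivity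
  obtain ⟨τ, hτ⟩ : ∃ τ, τ = τ' / (6 * (1 + a)) := ⟨_, rfl⟩
  have hτ0 : 0 < τ := by rw [hτ]; positivity
  obtain ⟨J₁, hJ₁⟩ := exists_nat_gt (C / (η / 4))
  refine Claim.of hτ0 J₁ fun J hJ F A hS hcl hb S z k P hP hk hz hbox hl hD => ?_
  have hJr : C / (η / 4) < J := hJ₁.trans_le (by exact_mod_cast hJ)
  have t1 : 0 ≤ C / (η / 4) := by positivity
  have hJ0 : (0 : ℝ) < J := by linarith
  have k1 : C < η / 4 * J := by
    rw [div_lt_iff₀ (by positivity)] at hJr
    linarith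
  obtain ⟨hTr, hMx, hRb, hPA⟩ := hS
  have hp := F.isLaw
  obtain ⟨hlaw, -, hMx', -⟩ := max_res F ha hτ0.le hτ0.le hTr hMx hRb A hPA
  have e7 : (1 + a) * (5 * τ + τ) = τ' := by
    rw [hτ]
    field_simp
    ring
  rw [e7] at hMx'
  have hA' : ∀ ω, 0 < (F.res A True hlaw).p ω → A ω := fun ω hω => by
    have := ((cond_pos_iff hp.nonneg A True ω).1 hω).2
    simpa using this
  obtain ⟨u, hu⟩ : ∃ u, u = J / N := ⟨_, rfl⟩
  have hu1 : N * u ≤ J := by rw [hu]; exact Nat.mul_div_le J N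
  have hvu : v * u ≤ J := by
    have : v * u ≤ N * u := Nat.mul_le_mul_right u hvN
    omega
  have hyu : y * u ≤ v * u := Nat.mul_le_mul_right u hyv
  have hsub : v * u - y * u = (v - y) * u := (Nat.sub_mul v y u).symm
  refine hcl hb S z hz hl ?_
  rw [← hu] at hbox hD ⊢
  have h1 := hboxA J P (F.res A True hlaw) (v * u) (y * u) σ S z k (τ' * J) _ hσ hyu hvu hk
    hMx'.1 le_rfl
    (by
      obtain ⟨M, xb, db, h2, h3⟩ := hbox
      exact ⟨M, xb, db, h2, fun ω hω i => h3 ω (hA' ω hω) i⟩)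
  rw [hsub] at h1
  have h2 : CH (cpy (Pool.Agent.H49.Ent.cond F.p A True) (slam F ((v - y) * u)))
      (fun w => z w.1) (fun w => (Fam.pt F w.2, F.T w.1)) ≤ full P k -
      CH (Pool.Agent.H49.Ent.cond F.p A True) (F.X P) (fun ω => (z ω, F.W ω)) +
      m * (((y * u : ℕ) : ℝ) * Real.log 2) + C + τ' * J +
      CH (Pool.Agent.H49.Ent.cond F.p A True) z (fun ω => (F.X P ω, F.W ω)) := by
    refine le_trans ?_ h1
    refine CH_mono_cond (prs_law (F.res A True hlaw) ((v - y) * u)).nonneg fun w w' _ _ h => ?_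
    have e1 : F.X J w.2 = F.X J w'.2 ∧ F.W w.2 = F.W w'.2 ∧ F.T w.1 = F.T w'.1 := by
      obtain ⟨g1, g2⟩ := Prod.ext_iff.mp h
      obtain ⟨g3, g4⟩ := Prod.ext_iff.mp g1
      exact ⟨g3, g4, g2⟩
    have e2 : F.X P w.2 = F.X P w'.2 := Pool.STK.B58.fl_fine hP e1.1
    exact Prod.ext (Prod.ext e2 e1.2.1) e1.2.2
  have h3 : τ' * J = η / 4 * J := by rw [hτ']
  linarith

end Pool.K3
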