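import Pool.Agent.H5.K3.BoxA
import Pool.Agent.H5.K3.Act
import Pool.Agent.H13.K2S.Skel
import Pool.Agent.H13.K2S.Cht
import Pool.Agent.H97.K2.AP5
import Pool.Agent.H52.K2.AP6

/-!
# Lemma B: the direction of the fans has no jumps

If a visible label determines the line of directions up to `2 ^ (-lam)` and is known, up to
`δ J`, from the position at another time of the window, then the direction is known from the
window up to `2 ^ (-(lam - q))`, as soon as `(R / a) q > δ J`: otherwise the two directions through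
the two positions would cross, and the fan at the second position would be thin.
-/

set_option autoImplicit false

namespace Pool.K3

open Finset Real
open Pool.Agent.H49.Ent Pool.Agent.H32.Dense Pool.STK Pool.KA Pool.KSAT Pool.KS6 Pool.K2S

section Cross

variable {Ω S T : Type} [Fintype Ω]

/-- Two vectors `Δ` close to the lines of directions `e` and `e'`, which differ. -/
theorem cross_two {m : ℕ} {Δ e e' : Fin m → ℝ} {Δ₀ r ρ : ℝ} (hρ : 0 < ρ)
    (h1 : ∀ j, |Δ j - e j * Δ₀| ≤ r) (h2 : ∀ j, |Δ j - e' j * Δ₀| ≤ r)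
    (he : ∃ j, ρ < |e j - e' j|) (hb : ∀ j, |e' j| ≤ 2) (hρ1 : ρ ≤ 1) (j : Fin m) :
    |Δ j| ≤ 5 * r / ρ := by
  obtain ⟨j₀, hj₀⟩ := he
  have hr : 0 ≤ r := (abs_nonneg _).trans (h1 j)
  have a1 : |e j₀ - e' j₀| * |Δ₀| ≤ 2 * r := by
    rw [← abs_mul]
    have e1 : (e j₀ - e' j₀) * Δ₀ = (Δ j₀ - e' j₀ * Δ₀) - (Δ j₀ - e j₀ * Δ₀) := by ring
    rw [e1]
    refine (abs_sub _ _).trans ?_
    linarith [h1 j₀, h2 j₀]
  have a2 : |Δ₀| ≤ 2 * r / ρ := by
    rw [le_div_iff₀ hρ]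
    have : |Δ₀| * ρ ≤ |Δ₀| * |e j₀ - e' j₀| := mul_le_mul_of_nonneg_left hj₀.le (abs_nonneg _)
    linarith
  have a3 : |e' j * Δ₀| ≤ 2 * (2 * r / ρ) := by
    rw [abs_mul]
    exact mul_le_mul (hb j) a2 (abs_nonneg _) (by norm_num)
  have a4 : r ≤ r / ρ := by
    rw [le_div_iff₀ hρ]
    nlinarith only [hρ1, hr]
  have e1 : Δ j = (Δ j - e' j * Δ₀) + e' j * Δ₀ := by ring
  rw [e1]
  refine (abs_add_le _ _).trans ?_
  have e2 : 5 * r / ρ = r / ρ + 2 * (2 * r / ρ) := by ring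
  rw [e2]
  linarith only [a3, a4, h2, h2 j]

open Classical in
/-- Entropy of digits which are known outside a small event. -/
theorem CH_le_good {d : ℕ} {p : Ω → ℝ} (hp : IsLaw p) (X : Ω → Fin d → ℤ) (W : Ω → T)
    (B : Ω → Prop) (L M ε : ℝ) (hL : 0 ≤ L) (hM : 0 ≤ M) (hε : Pe p B ≤ ε)
    (hX : ∀ ω ω', 0 < p ω → 0 < p ω' → W ω = W ω' → ¬ B ω → ¬ B ω' →
      ∀ k, |((X ω k - X ω' k : ℤ) : ℝ)| ≤ L)
    (hXM : ∀ ω ω', 0 < p ω → 0 < p ω' → W ω = W ω' → ∀ k, |((X ω k - X ω' k : ℤ) : ℝ)| ≤ M) :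
    CH p X W ≤ Real.log 2 + d * (Real.log (2 * L + 1) + ε * Real.log (2 * M + 1)) := by
  set I : Ω → Bool := fun ω => decide (B ω) with hI
  have h1 : CH p X W ≤ CH p I W + CH p X (fun ω => (I ω, W ω)) := CH_le_add hp.nonneg X I W
  have h2 : CH p I W ≤ Real.log 2 := by
    have h3 := CH_le_card hp.nonneg hp.sum_one I W (fun _ => Finset.univ)
      (fun ω _ => Finset.mem_univ _)
    refine h3.trans ?_
    rw [Ex_const hp.sum_one]
    simp
  set N : Ω → ℝ := fun ω => if B ω then M else L with hN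
  have h4 : CH p X (fun ω => (I ω, W ω)) ≤ d * Ex p (fun ω => Real.log (2 * N ω + 1)) := by
    refine CH_le_vec hp.nonneg hp.sum_one X _ N ?_
    intro ω ω' hω hω' h k
    obtain ⟨h5, h6⟩ := Prod.ext_iff.mp h
    simp only at h5 h6
    by_cases h7 : B ω
    · rw [hN]
      dsimp only
      rw [if_pos h7]
      exact hXM ω ω' hω hω' h6 k
    · have h8 : ¬ B ω' := by
        intro h9
        rw [hI] at h5
        dsimp only at h5
        rw [decide_eq_false h7, decide_eq_true h9] at h5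
        exact Bool.false_ne_true h5
      rw [hN]
      dsimp only
      rw [if_neg h7]
      exact hX ω ω' hω hω' h6 h7 h8 k
  have hlogM : 0 ≤ Real.log (2 * M + 1) := Real.log_nonneg (by linarith only [hM])
  have hlogL : 0 ≤ Real.log (2 * L + 1) := Real.log_nonneg (by linarith)
  have h5 : Ex p (fun ω => Real.log (2 * N ω + 1)) ≤
      Real.log (2 * L + 1) + ε * Real.log (2 * M + 1) := by
    have h6 : Ex p (fun ω => Real.log (2 * N ω + 1)) ≤ Ex p (fun ω => Real.log (2 * L + 1) +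
        Real.log (2 * M + 1) * (if B ω then 1 else 0)) := by
      refine Ex_mono hp.nonneg fun ω _ => ?_
      rw [hN]
      dsimp only
      by_cases h7 : B ω
      · rw [if_pos h7, if_pos h7]
        linarith only [hlogL]
      · rw [if_neg h7, if_neg h7]
        linarith only
    rw [Ex_add, Ex_const hp.sum_one, Ex_smul] at h6
    have h8 : Ex p (fun ω => if B ω then (1 : ℝ) else 0) = Pe p B := by
      rw [Pe_eq]
      unfold Ex
      refine Finset.sum_congr rfl fun ω _ => ?_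
      by_cases h9 : B ω
      · simp [h9]
      · simp [h9]
    rw [h8] at h6
    have h9 := mul_le_mul_of_nonneg_left hε hlogM
    linarith only [h6, h9]
  have h10 : (d : ℝ) * Ex p (fun ω => Real.log (2 * N ω + 1)) ≤
      d * (Real.log (2 * L + 1) + ε * Real.log (2 * M + 1)) :=
    mul_le_mul_of_nonneg_left h5 (Nat.cast_nonneg d)
  linarith only [h1, h2, h4, h10]

end Cross

section Main

variable {m : ℕ}

/-- The time of the first sample, for quantities of the second one. -/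
theorem prs_time' {J : ℕ} (F : Fam m J) {w : ℕ} (hw : w ≤ J) {e : ℝ} (he : F.Tm e) {S U : Type}
    (Y : F.Ω → S) (V : F.Ω → U) (hV : Det F.p V (F.T1 w)) :
    CH F.p Y V - (e + Real.log 5) ≤
      CH (prs F w) (fun v => Y v.2) (fun v => (F.T v.1, V v.2)) := by
  have h1 := prs_time F hw he Y V hV
  have h2 := (prs_swap F w).CH (fun v => Y v.1) (fun v => (F.T v.2, V v.1))
  rw [← h2] at h1
  exact h1

/-- The marginal law of the second sample. -/
theorem Pe_snd {J : ℕ} (F : Fam m J) (w : ℕ) (B : F.Ω → Prop) :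
    Pe (prs F w) (fun v => B v.2) = Pe F.p B := (prs_snd F w).law B True

/-- The directions of two samples of one line. -/
theorem prs_D {J : ℕ} (F : Fam m J) (w q : ℕ) {v : F.Ω × F.Ω} (hv : 0 < prs F w v) :
    F.D q v.1 = F.D q v.2 := by
  unfold Fam.D
  rw [(prs_pos hv).2.2.2.1]

/-- If the direction of the fans is not known from the window, the direction of the line is known
from the label at one time and the position at another time. -/
theorem boxB_core {J : ℕ} (F : Fam m J) {A : F.Ω → Prop} (hA : 0 < Pe F.p A) {i₀ : Fin m}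
    {κ : ℝ} {h l q w x : ℕ} {S : Type} {z : F.Ω → S}
    (hs : Stb F.p κ A (RotU i₀ (1 / 2 ^ l) (1 / 2 ^ l) (Fam.pt F) (slam F w) F.d))
    (hn : ¬ RotU i₀ (1 / 2 ^ l) (1 / 2 ^ l) (Fam.pt F) (slam F w) F.d A)
    (hs' : Stb F.p κ A (Ball (1 / 2 ^ x) (Fam.pt F) F.d))
    (hn' : ¬ Ball (1 / 2 ^ x) (Fam.pt F) F.d A)
    (hb : Lb F i₀ h A) (hz : ∃ φ : (Fin m → ℤ) × (ℕ × F.ζ) → S, ∀ ω, A ω → z ω = φ (Fam.pt F ω))
    (hl : LineU i₀ (1 / 2 ^ (l + q)) z F.d A) (hh : x + 3 ≤ h) (hx : x + 3 ≤ l + q)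
    (hlaw : IsLaw (Pool.Agent.H49.Ent.cond F.p A True)) :
    CH (prs (F.res A True hlaw) w) (fun v => F.D q v.2)
      (fun v => (z v.1, (F.T v.1, Fam.pt F v.2))) ≤
      Real.log 2 + m * (Real.log (2 * 11 + 1) +
        2 * Real.exp (-κ) * Real.log (2 * (2 * 2 ^ q + 1) + 1)) := by
  classical
  have hp := F.isLaw
  obtain ⟨φ, hφ⟩ := hz
  obtain ⟨e, n, hen⟩ := hl
  obtain ⟨e₀, n₀, he₀⟩ := hb
  set G := F.res A True hlaw with hG
  have hA' : ∀ ω, 0 < G.p ω → A ω := fun ω hω => by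
    have := ((cond_pos_iff hp.nonneg A True ω).1 hω).2
    simpa using this
  -- the frames of the label, as functions of the point
  have hon : OnL i₀ (1 / 2 ^ (l + q)) (Fam.pt F) F.d A (fun u => e (φ u)) (fun u => n (φ u)) := by
    intro ω hω j
    have := hen ω hω j
    rwa [hφ ω hω] at this
  have hle : (1 : ℝ) / 2 ^ (l + q) ≤ 1 / 2 ^ l :=
    one_div_le_one_div_of_le (by positivity) (pow_le_pow_right₀ (by norm_num) (by omega))
  -- the event of bad pairs
  set far : F.Ω → Prop := fun ω => Thin (1 / 2 ^ x) (Fam.pt F) F.d A ω with hfar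
  set B : F.Ω × F.Ω → Prop := fun v =>
    (∀ j, |e (φ (Fam.pt F v.1)) j - e (φ (Fam.pt F v.2)) j| ≤ 1 / 2 ^ l) ∨ far v.2 with hB
  have hPe : Pe (prs G w) B ≤ 2 * Real.exp (-κ) := by
    have h1 : Pe (prs G w) (fun v => ∀ j, |e (φ (Fam.pt F v.1)) j - e (φ (Fam.pt F v.2)) j| ≤
        1 / 2 ^ l) < Real.exp (-κ) :=
      hs.rotU_cpy_lt hp hA hn (hon.mono hle) (wn' := slam F w) (φ := id) (fun _ => rfl)
    have h2 : Pe (prs G w) (fun v => far v.2) < Real.exp (-κ) := by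
      have h3 : Pe (prs G w) (fun v => far v.2) = Pe G.p far := Pe_snd G w far
      rw [h3]
      have h4 : Pe G.p far = Pe F.p (fun ω => A ω ∧ far ω) / Pe F.p A := Pe_cond far
      rw [h4, div_lt_iff₀ hA]
      exact hs'.thin_lt hn'
    have h3 := Pe_or (prs_law G w) (A := B) (B₀ := fun v => ∀ j, |e (φ (Fam.pt F v.1)) j -
      e (φ (Fam.pt F v.2)) j| ≤ 1 / 2 ^ l) (B₁ := fun v => far v.2) (fun v hv => hv)
    linarith only [h1, h2, h3]
  have h2q : (0 : ℝ) < 2 ^ q := by positivity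
  -- bounded slopes away from the thin fans
  have hbd : ∀ ω, A ω → ¬ far ω → ∀ j, |e (φ (Fam.pt F ω)) j| ≤ 2 := by
    intro ω hω hf j
    have hsub : Sub (fun ω => A ω ∧ ¬ Thin (1 / 2 ^ x) (Fam.pt F) F.d A ω) A := fun ω hω => hω.1
    have h1 := spread_of_not_thin (1 / 2 ^ x) (Fam.pt F) F.d A
    have h2 := he₀.sub hsub
    have h3 := h2.spreadI h1
    have e1 : (1 : ℝ) / 2 ^ h ≤ 1 / 8 * (1 / 2 ^ x) := by
      rw [one_div_mul_one_div, show (8 : ℝ) * 2 ^ x = 2 ^ (x + 3) by rw [pow_add]; ring]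
      exact one_div_le_one_div_of_le (by positivity) (pow_le_pow_right₀ (by norm_num) hh)
    have e2 : (1 : ℝ) / 2 ^ (l + q) ≤ 1 / 8 * (1 / 2 ^ x) := by
      rw [one_div_mul_one_div, show (8 : ℝ) * 2 ^ x = 2 ^ (x + 3) by rw [pow_add]; ring]
      exact one_div_le_one_div_of_le (by positivity) (pow_le_pow_right₀ (by norm_num) hx)
    have e3 : (0 : ℝ) < 1 / 2 ^ x := by positivity
    exact OnL.bound h2 (hon.sub hsub) h3 (by linarith only [e1, e3]) (by linarith only [e1, e2, e3]) ω ⟨hω, hf⟩ j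
  refine CH_le_good (prs_law G w) _ _ B 11 (2 * 2 ^ q + 1) (2 * Real.exp (-κ)) (by norm_num)
    (by positivity) hPe ?_ ?_
  · intro v v' hv hv' hW hBv hBv' k
    obtain ⟨a1, a2, a3, a4, a5, a6⟩ := prs_pos hv
    obtain ⟨b1, b2, b3, b4, b5, b6⟩ := prs_pos hv'
    simp only [Prod.mk.injEq] at hW
    obtain ⟨g1, g2, g3⟩ := hW
    rw [hB] at hBv
    push Not at hBv
    obtain ⟨⟨j₀, hj₀⟩, hf⟩ := hBv
    have c1 := hA' _ a1
    have c2 := hA' _ a2
    have c3 := hA' _ b1
    have c4 := hA' _ b2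
    have a4' : F.d v.1 = F.d v.2 := a4
    have b4' : F.d v'.1 = F.d v'.2 := b4
    have key := cross_two (m := m) (Δ := fun j => F.d v.2 j - F.d v'.2 j)
      (e := e (z v.1)) (e' := e (φ (Fam.pt F v.2))) (Δ₀ := F.d v.2 i₀ - F.d v'.2 i₀)
      (r := 2 * (1 / 2 ^ (l + q))) (ρ := 1 / 2 ^ l) (by positivity) ?_ ?_ ?_ (hbd _ c2 hf) ?_ k
    · have e1 : 5 * (2 * (1 / 2 ^ (l + q))) / (1 / 2 ^ l) = (10 : ℝ) / 2 ^ q := by
        rw [pow_add]
        field_simp
        norm_num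
      rw [e1, le_div_iff₀ h2q] at key
      have f1 := Int.floor_le ((2 : ℝ) ^ q * F.d v.2 k)
      have f2 := Int.lt_floor_add_one ((2 : ℝ) ^ q * F.d v.2 k)
      have f3 := Int.floor_le ((2 : ℝ) ^ q * F.d v'.2 k)
      have f4 := Int.lt_floor_add_one ((2 : ℝ) ^ q * F.d v'.2 k)
      have f5 : |(2 : ℝ) ^ q * F.d v.2 k - 2 ^ q * F.d v'.2 k| ≤ 10 := by
        rw [← mul_sub, abs_mul, abs_of_pos h2q, mul_comm]
        exact key
      change |((⌊(2 : ℝ) ^ q * F.d v.2 k⌋ - ⌊(2 : ℝ) ^ q * F.d v'.2 k⌋ : ℤ) : ℝ)| ≤ 11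
      rw [abs_le] at f5 ⊢
      push_cast
      constructor <;> linarith [f5.1, f5.2]
    · intro j
      have d1 := hen _ c1 j
      have d2 := hen _ c3 j
      rw [a4'] at d1
      rw [← g1, b4'] at d2
      have e1 : (F.d v.2 j - F.d v'.2 j) - e (z v.1) j * (F.d v.2 i₀ - F.d v'.2 i₀) =
          (F.d v.2 j - e (z v.1) j * F.d v.2 i₀ - n (z v.1) j) -
          (F.d v'.2 j - e (z v.1) j * F.d v'.2 i₀ - n (z v.1) j) := by ring
      rw [e1]
      refine (abs_sub _ _).trans ?_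
      linarith only [hlaw, d1, d2]
    · intro j
      have d1 := hon _ c2 j
      have d2 := hon _ c4 j
      rw [← g3] at d2
      have e1 : (F.d v.2 j - F.d v'.2 j) - e (φ (Fam.pt F v.2)) j * (F.d v.2 i₀ - F.d v'.2 i₀) =
          (F.d v.2 j - e (φ (Fam.pt F v.2)) j * F.d v.2 i₀ - n (φ (Fam.pt F v.2)) j) -
          (F.d v'.2 j - e (φ (Fam.pt F v.2)) j * F.d v'.2 i₀ - n (φ (Fam.pt F v.2)) j) := by ring
      rw [e1]
      refine (abs_sub _ _).trans ?_
      linarith only [hlaw, d1, d2]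
    · refine ⟨j₀, ?_⟩
      rw [hφ _ c1]
      exact hj₀
    · rw [div_le_one (by positivity)]
      exact one_le_pow₀ (by norm_num)
  · intro v v' hv hv' hW k
    have h1 := F.dir v.2 k
    have h2 := F.dir v'.2 k
    have f1 := Int.floor_le ((2 : ℝ) ^ q * F.d v.2 k)
    have f2 := Int.lt_floor_add_one ((2 : ℝ) ^ q * F.d v.2 k)
    have f3 := Int.floor_le ((2 : ℝ) ^ q * F.d v'.2 k)
    have f4 := Int.lt_floor_add_one ((2 : ℝ) ^ q * F.d v'.2 k)
    have f5 : |(2 : ℝ) ^ q * F.d v.2 k| ≤ 2 ^ q := by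
      rw [abs_mul, abs_of_pos h2q]
      nlinarith only [h2q, h1]
    have f6 : |(2 : ℝ) ^ q * F.d v'.2 k| ≤ 2 ^ q := by
      rw [abs_mul, abs_of_pos h2q]
      nlinarith only [h2q, h2]
    change |((⌊(2 : ℝ) ^ q * F.d v.2 k⌋ - ⌊(2 : ℝ) ^ q * F.d v'.2 k⌋ : ℤ) : ℝ)| ≤ 2 * 2 ^ q + 1
    rw [abs_le] at f5 f6 ⊢
    push_cast
    constructor <;> linarith [f5.1, f5.2, f6.1, f6.2]

/-- **Lemma B (claim).** Scales are multiples of `J / N`: `j` is the precision to which the label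
determines the line of directions, `b` the number of digits of the velocity, `v` the window. -/
def LBStmt : Prop :=
  ∀ (m : ℕ) (a R : ℝ), 1 ≤ a → 0 < R → UBa m a R → ∀ h₁ η : ℝ, 0 < h₁ → 0 < η →
    ∀ (N : ℕ) (i₀ : Fin m) (j b v : ℕ), b ≤ j → b < N → v ≤ N →
    Claim (m := m) a R (fun J F A => Lb F i₀ ⌊h₁ * J⌋₊ A →
      ∀ (S : Type) (z : F.Ω → S),
      (∃ φ : (Fin m → ℤ) × (ℕ × F.ζ) → S, ∀ ω, A ω → z ω = φ (Fam.pt F ω)) →
      LineU i₀ (1 / 2 ^ (j * (J / N))) z F.d A →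
      CH (cpy (Pool.Agent.H49.Ent.cond F.p A True) (slam F (v * (J / N)))) (fun w => z w.1)
        (fun w => (Fam.pt F w.2, F.T w.1)) ≤ R / a * ((b * (J / N) : ℕ) : ℝ) - η * J →
      Cn F i₀ ((j - b) * (J / N)) (v * (J / N)) A)

theorem lb_thm : LBStmt := by
  classical
  intro m a R ha hR hU h₁ η hh₁ hη N i₀ j b v hbj hbN hvN
  have hN0 : 0 < N := by omega
  have hNr : (0 : ℝ) < N := by exact_mod_cast hN0
  have ha0 : 0 < a := by linarith only [ha]
  rcases Nat.eq_zero_or_pos b with hb0 | hb0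
  · -- the case `b = 0` is void for large `J`
    refine Claim.of one_pos 1 fun J hJ F A hS hb S z hz hl hC => ?_
    exfalso
    have h1 : 0 ≤ CH (cpy (Pool.Agent.H49.Ent.cond F.p A True) (slam F (v * (J / N))))
        (fun w => z w.1) (fun w => (Fam.pt F w.2, F.T w.1)) := by
      refine CH_nonneg (fun w => ?_) _ _
      unfold cpy
      have h2 : ∀ ω, 0 ≤ Pool.Agent.H49.Ent.cond F.p A True ω :=
        cond_nonneg F.isLaw.nonneg A True
      split_ifs
      · exact div_nonneg (mul_nonneg (h2 _) (h2 _)) (law_nonneg h2 _ _)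
      · exact le_rfl
    rw [hb0] at hC
    have hJr : (1 : ℝ) ≤ J := by exact_mod_cast hJ
    simp only [zero_mul, Nat.cast_zero, mul_zero, zero_sub] at hC
    have : 0 < η * J := by positivity
    linarith only [h1, hC, this]
  -- the spread of the fans
  obtain ⟨x, hx⟩ : ∃ x, x = min h₁ (1 / N) / 4 := ⟨_, rfl⟩
  have hx0 : 0 < x := by rw [hx]; positivity
  have hx1 : x ≤ h₁ / 4 := by
    rw [hx]
    have := min_le_left h₁ (1 / N : ℝ)
    linarith only [this]
  have hx2 : x ≤ 1 / N / 4 := by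
    rw [hx]
    have := min_le_right h₁ (1 / N : ℝ)
    linarith only [this]
  refine Claim.one ⟨2, fun J F i => if i = 0 then
    RotU i₀ (1 / 2 ^ ((j - b) * (J / N))) (1 / 2 ^ ((j - b) * (J / N))) (Fam.pt F)
      (slam F (v * (J / N))) F.d else Ball (1 / 2 ^ ⌈x * J⌉₊) (Fam.pt F) F.d,
    fun J F i => by
      split_ifs
      · exact RotU.hered _ _ _ _ _ _
      · exact Ball.hered _ _ _⟩ fun κ hκ => ?_
  obtain ⟨τ₁, hτ₁, J₂, hball⟩ := not_ball (ap6r_thm ap5_thm (ap2_thm aop_thm) tub_thm) ha hR hU hx0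
  obtain ⟨x₀, hx₀⟩ : ∃ x₀ : ℝ, x₀ = 1 / N := ⟨_, rfl⟩
  have hx₀0 : 0 < x₀ := by rw [hx₀]; positivity
  obtain ⟨τ₂, hτ₂, J₃, hact⟩ := act_thm m a R ha hU (η := η / 4) (x₀ := x₀) (by positivity) hx₀0
  obtain ⟨τ', hτ'⟩ : ∃ τ', τ' = min (min τ₁ τ₂) (η / 4) := ⟨_, rfl⟩
  have hτ'0 : 0 < τ' := by rw [hτ']; positivity
  obtain ⟨τ, hτ⟩ : ∃ τ, τ = τ' / (6 * (1 + a)) := ⟨_, rfl⟩
  have hτ0 : 0 < τ := by rw [hτ]; positivity
  obtain ⟨Cst, hCst⟩ : ∃ Cst : ℝ, Cst = Real.log 5 + Real.log 2 + m * (Real.log (2 * 11 + 1) +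
    2 * (3 / κ + 3)) := ⟨_, rfl⟩
  have hCst0 : 0 ≤ Cst := by
    rw [hCst]
    have h1 : 0 ≤ Real.log 5 := Real.log_nonneg (by norm_num)
    have h2 : 0 ≤ Real.log 2 := Real.log_nonneg (by norm_num)
    have h3 : 0 ≤ Real.log (2 * 11 + 1) := Real.log_nonneg (by norm_num)
    positivity
  obtain ⟨J₁, hJ₁⟩ := exists_nat_gt (Cst / (η / 4) + J₂ + J₃ + 16 / x + 16 * N + 1)
  refine ⟨τ, hτ0, J₁, ?_⟩
  intro J hJ F A hS hSb hb S z hz hl hC
  by_contra hn
  have hJr : Cst / (η / 4) + J₂ + J₃ + 16 / x + 16 * N + 1 < J :=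
    hJ₁.trans_le (by exact_mod_cast hJ)
  have t1 : 0 ≤ Cst / (η / 4) := by positivity
  have t2 : (0 : ℝ) ≤ J₂ := by positivity
  have t3 : (0 : ℝ) ≤ J₃ := by positivity
  have t4 : 0 ≤ 16 / x := by positivity
  have t5 : 0 ≤ 16 * (N : ℝ) := by positivity
  have hJ0 : (0 : ℝ) < J := by linarith only [hNr, hJr, t1, t4]
  have k1 : Cst < η / 4 * J := by
    have : Cst / (η / 4) < J := by linarith only [hNr, hJr, t4]
    rw [div_lt_iff₀ (by positivity)] at this
    linarith only [this]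
  have k2 : J₂ ≤ J := by
    have : (J₂ : ℝ) ≤ J := by linarith only [hNr, hJr, t1, t4]
    exact_mod_cast this
  have k3 : J₃ ≤ J := by
    have : (J₃ : ℝ) ≤ J := by linarith only [hNr, hJr, t1, t4]
    exact_mod_cast this
  have k4 : 16 < x * J := by
    have : 16 / x < J := by linarith only [hNr, hJr, t1]
    rw [div_lt_iff₀ hx0] at this
    linarith only [this]
  have k5 : 16 * (N : ℝ) < J := by linarith only [hJr, t1, t4]
  obtain ⟨hTr, hMx, hRb, hPA⟩ := hS
  have hp := F.isLaw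
  have hA0 : 0 < Pe F.p A := lt_of_lt_of_le (Real.exp_pos _) hPA
  obtain ⟨hlaw, -, hMx', -⟩ := max_res F ha hτ0.le hτ0.le hTr hMx hRb A hPA
  have e7 : (1 + a) * (5 * τ + τ) = τ' := by
    rw [hτ]
    field_simp
    ring
  rw [e7] at hMx'
  have hle : ∀ t, τ' ≤ t → (F.res A True hlaw).Mx a R t := by
    intro t ht
    have e1 : τ' * J ≤ t * J := mul_le_mul_of_nonneg_right ht hJ0.le
    have h1 := hMx'.1
    have h2 := hMx'.2
    refine ⟨?_, ?_⟩
    · unfold Fam.Tm at h1 ⊢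
      linarith only [hlaw, e1, h1]
    · have e2 : (R - t) * J ≤ (R - τ') * J :=
        mul_le_mul_of_nonneg_right (by linarith only [ht]) hJ0.le
      linarith only [hlaw, e1, h2]
  -- scales
  obtain ⟨u, hu⟩ : ∃ u, u = J / N := ⟨_, rfl⟩
  rw [← hu] at hl hC hn
  have hu1 : N * u ≤ J := by rw [hu]; exact Nat.mul_div_le J N
  have hu2 : (J : ℝ) < N * (u + 1) := by
    have := Nat.lt_mul_div_succ J hN0
    rw [← hu] at this
    exact_mod_cast this
  have hu1r : (N : ℝ) * u ≤ J := by exact_mod_cast hu1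
  have hxu : ⌈x * J⌉₊ + 3 ≤ u := by
    have h1 : (⌈x * J⌉₊ : ℝ) < x * J + 1 := Nat.ceil_lt_add_one (by positivity)
    have h2 : x * J ≤ (u + 1) / 4 := by
      calc x * J ≤ 1 / N / 4 * J := mul_le_mul_of_nonneg_right hx2 hJ0.le
        _ = J / N / 4 := by ring
        _ ≤ _ := by
          refine div_le_div_of_nonneg_right ?_ (by norm_num)
          rw [div_le_iff₀ hNr]
          linarith only [hu2]
    have h3 : (⌈x * J⌉₊ : ℝ) + 3 ≤ u := by
      have h4 : 16 < (u : ℝ) + 1 := by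
        have : (N : ℝ) * 16 < N * (u + 1) := by linarith only [hJr, t1, t4, hu2]
        exact lt_of_mul_lt_mul_left this hNr.le
      linarith only [k4, h1, h2]
    exact_mod_cast h3
  have hxh : ⌈x * J⌉₊ + 3 ≤ ⌊h₁ * J⌋₊ := by
    have h1 : (⌈x * J⌉₊ : ℝ) < x * J + 1 := Nat.ceil_lt_add_one (by positivity)
    have h2 : x * J ≤ h₁ / 4 * J := mul_le_mul_of_nonneg_right hx1 hJ0.le
    refine Nat.le_floor ?_
    push_cast
    linarith only [k4, h1, h2]
  have hjb : (j - b) * u + b * u = j * u := by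
    rw [← add_mul]
    congr 1
    omega
  have hbu : u ≤ j * u := by
    have : 1 * u ≤ j * u := Nat.mul_le_mul_right u (by omega)
    omega
  have hs0 := hSb 0
  have hs1 := hSb 1
  simp only [if_true, ← hu] at hs0
  simp only [show ¬ ((1 : Fin 2) = 0) by decide, if_false] at hs1
  have hnb : ¬ Ball (1 / 2 ^ ⌈x * J⌉₊) (Fam.pt F) F.d A := by
    rintro ⟨ζ, hζ⟩
    have hxJ : ⌈x * J⌉₊ ≤ J := by
      have h1 : u ≤ J := by
        have : 1 * u ≤ N * u := Nat.mul_le_mul_right u (by omega)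
        omega
      omega
    refine hball J k2 (F.res A True hlaw) (hle τ₁ ?_) ⌈x * J⌉₊ hxJ (Nat.le_ceil _) ⟨ζ, ?_⟩
    · rw [hτ']
      exact (min_le_left _ _).trans (min_le_left _ _)
    · intro ω hω i
      have hω' : A ω := by
        have := ((cond_pos_iff hp.nonneg A True ω).1 hω).2
        simpa using this
      exact hζ ω hω' i
  have hcore := boxB_core F hA0 (κ := κ * J) (h := ⌊h₁ * J⌋₊) (l := (j - b) * u) (q := b * u)
    (w := v * u) (x := ⌈x * J⌉₊) (z := z) hs0 hn hs1 hnb hb hz (by rw [hjb]; exact hl) hxh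
    (by rw [hjb]; omega) hlaw
  -- activity
  have hbJ : b * u ≤ J := by
    have : b * u ≤ N * u := Nat.mul_le_mul_right u hbN.le
    omega
  have hbJr : ((b * u : ℕ) : ℝ) ≤ (1 - x₀) * J := by
    have h1 : (b + 1) * u ≤ N * u := Nat.mul_le_mul_right u hbN
    have h2 : ((b : ℝ) + 1) * u ≤ N * u := by exact_mod_cast h1
    have h3 : (b : ℝ) + 1 ≤ N := by exact_mod_cast hbN
    have h4 : (u : ℝ) ≤ J / N := by
      rw [le_div_iff₀ hNr]
      linarith only [hu1r]
    have h5 : (b : ℝ) * u ≤ (N - 1) * (J / N) := by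
      have h6 : (b : ℝ) ≤ N - 1 := by linarith only [h3]
      have h7 : (0 : ℝ) ≤ b := Nat.cast_nonneg b
      exact mul_le_mul h6 h4 (Nat.cast_nonneg u) (by linarith only [h3])
    push_cast
    refine h5.trans (le_of_eq ?_)
    rw [hx₀]
    field_simp
  have hA2 := hact J k3 (F.res A True hlaw) (hle τ₂ (by
    rw [hτ']
    exact (min_le_left _ _).trans (min_le_right _ _))) (b * u) hbJ hbJr
  have hvu : v * u ≤ J := by
    have : v * u ≤ N * u := Nat.mul_le_mul_right u hvN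
    omega
  have hTm : (F.res A True hlaw).Tm (τ' * J) := hMx'.1
  have hB2 := prs_time' (F.res A True hlaw) hvu hTm ((F.res A True hlaw).D (b * u))
    (fun ω => ((F.res A True hlaw).X J ω, (F.res A True hlaw).W ω)) (fun ω ω' _ _ h => by
      have h2 : (F.res A True hlaw).T ω = (F.res A True hlaw).T ω' :=
        (Prod.ext_iff.mp (Prod.ext_iff.mp h).2).1
      unfold Fam.T1
      rw [h2])
  obtain ⟨G, hG⟩ : ∃ G, G = F.res A True hlaw := ⟨_, rfl⟩
  have hQ0 := (prs_law (F.res A True hlaw) (v * u)).nonneg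
  have hC1 : CH (prs (F.res A True hlaw) (v * u)) (fun w : F.Ω × F.Ω => F.D (b * u) w.2)
      (fun w => (F.T w.1, Fam.pt F w.2)) ≤
      CH (prs (F.res A True hlaw) (v * u)) (fun w : F.Ω × F.Ω => z w.1)
      (fun w => (F.T w.1, Fam.pt F w.2)) +
      CH (prs (F.res A True hlaw) (v * u)) (fun w : F.Ω × F.Ω => F.D (b * u) w.2)
      (fun w => (z w.1, (F.T w.1, Fam.pt F w.2))) :=
    CH_le_add hQ0 (fun w : F.Ω × F.Ω => F.D (b * u) w.2) (fun w => z w.1)
      (fun w => (F.T w.1, Fam.pt F w.2))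
  have hC2 : CH (prs (F.res A True hlaw) (v * u)) (fun w : F.Ω × F.Ω => z w.1)
      (fun w => (F.T w.1, Fam.pt F w.2)) ≤ R / a * ((b * u : ℕ) : ℝ) - η * J := by
    refine le_trans (le_of_eq ?_) hC
    refine CH_congr hQ0 (fun _ _ _ _ h => (Prod.ext_iff.mp h).1)
      (fun _ _ _ _ h => (Prod.ext_iff.mp h).1) ?_ ?_
    · intro w w' _ _ h
      simp only [Prod.mk.injEq] at h ⊢
      exact ⟨h.2, h.1⟩
    · intro w w' _ _ h
      simp only [Prod.mk.injEq] at h ⊢
      exact ⟨h.2, h.1⟩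
  -- the error of the bad pairs
  have hexp : Real.exp (-(κ * J)) * Real.log (2 * (2 * 2 ^ (b * u) + 1) + 1) ≤ 3 / κ + 3 := by
    have h1 : Real.log (2 * (2 * 2 ^ (b * u) + 1) + 1) ≤ ((b * u : ℕ) : ℝ) * Real.log 2 + 3 := by
      have h2 : (2 * (2 * 2 ^ (b * u) + 1) + 1 : ℝ) ≤ 2 ^ (b * u) * 7 := by
        have : (1 : ℝ) ≤ 2 ^ (b * u) := one_le_pow₀ (by norm_num)
        linarith only [this]
      have h3 := Real.log_le_log (by positivity) h2
      rw [Real.log_mul (by positivity) (by norm_num), Real.log_pow] at h3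
      have h4 : Real.log 7 ≤ 3 := by
        have : Real.log 7 ≤ Real.log (Real.exp 3) := by
          refine Real.log_le_log (by norm_num) ?_
          have := Real.add_one_le_exp (1 : ℝ)
          have h5 : (7 : ℝ) ≤ (1 + 1) ^ 3 := by norm_num
          have h6 : ((1 : ℝ) + 1) ^ 3 ≤ Real.exp 1 ^ 3 :=
            pow_le_pow_left₀ (by norm_num) this 3
          rw [← Real.exp_nat_mul] at h6
          norm_num at h6 ⊢
          linarith only [h6]
        rwa [Real.log_exp] at this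
      linarith only [h3, h4]
    have h2 : ((b * u : ℕ) : ℝ) * Real.log 2 ≤ J := by
      have h3 : ((b * u : ℕ) : ℝ) ≤ J := by exact_mod_cast hbJ
      have h4 : Real.log 2 ≤ 1 := by
        have := Real.log_two_lt_d9
        linarith only [this]
      calc _ ≤ (J : ℝ) * 1 := mul_le_mul h3 h4 (Real.log_nonneg (by norm_num)) hJ0.le
        _ = _ := mul_one _
    have h3 : Real.exp (-(κ * J)) * J ≤ 1 / κ := by
      have h4 := Real.add_one_le_exp (κ * J)
      have h5 : κ * J ≤ Real.exp (κ * J) := by linarith only [h4]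
      rw [Real.exp_neg, inv_mul_le_iff₀ (Real.exp_pos _), mul_one_div, le_div_iff₀ hκ]
      linarith only [h4]
    have h4 : Real.exp (-(κ * J)) ≤ 1 := by
      rw [Real.exp_le_one_iff]
      have : 0 < κ * J := by positivity
      linarith only [this]
    calc _ ≤ Real.exp (-(κ * J)) * (J + 3) :=
          mul_le_mul_of_nonneg_left (by linarith only [h1, h2]) (Real.exp_pos _).le
      _ = Real.exp (-(κ * J)) * J + 3 * Real.exp (-(κ * J)) := by ring
      _ ≤ 1 / κ + 3 := by linarith only [h3, h4]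
      _ ≤ 3 / κ + 3 := by
          have : 1 / κ ≤ 3 / κ := div_le_div_of_nonneg_right (by norm_num) hκ.le
          linarith only [this]
  have hm : (m : ℝ) * (Real.log (2 * 11 + 1) + 2 * Real.exp (-(κ * J)) *
      Real.log (2 * (2 * 2 ^ (b * u) + 1) + 1)) ≤
      m * (Real.log (2 * 11 + 1) + 2 * (3 / κ + 3)) := by
    refine mul_le_mul_of_nonneg_left ?_ (Nat.cast_nonneg m)
    have : 2 * Real.exp (-(κ * J)) * Real.log (2 * (2 * 2 ^ (b * u) + 1) + 1) =
      2 * (Real.exp (-(κ * J)) * Real.log (2 * (2 * 2 ^ (b * u) + 1) + 1)) := by ring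
    rw [this]
    linarith only [hexp]
  have hτη : τ' * J ≤ η / 4 * J := by
    refine mul_le_mul_of_nonneg_right ?_ hJ0.le
    rw [hτ']
    exact min_le_right _ _
  have hD1 : R / a * ((b * u : ℕ) : ℝ) - η / 4 * J ≤
      CH (F.res A True hlaw).p ((F.res A True hlaw).D (b * u))
        (fun ω => ((F.res A True hlaw).X J ω, (F.res A True hlaw).W ω)) := hA2
  have hD2 : CH (F.res A True hlaw).p ((F.res A True hlaw).D (b * u))
        (fun ω => ((F.res A True hlaw).X J ω, (F.res A True hlaw).W ω)) -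
        (τ' * J + Real.log 5) ≤ CH (prs (F.res A True hlaw) (v * u))
        (fun w : F.Ω × F.Ω => F.D (b * u) w.2) (fun w => (F.T w.1, Fam.pt F w.2)) := hB2
  have hD3 : CH (prs (F.res A True hlaw) (v * u)) (fun w : F.Ω × F.Ω => F.D (b * u) w.2)
      (fun w => (z w.1, (F.T w.1, Fam.pt F w.2))) ≤ Real.log 2 + m * (Real.log (2 * 11 + 1) +
        2 * Real.exp (-(κ * J)) * Real.log (2 * (2 * 2 ^ (b * u) + 1) + 1)) := hcore
  have hηJ : 0 < η * J := by positivity
  have h1 := hD1.trans (sub_le_iff_le_add.1 hD2)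
  have h2 := hC1.trans (add_le_add hC2 (hD3.trans (add_le_add le_rfl hm)))
  have h3 := h1.trans (add_le_add h2 le_rfl)
  rw [hCst] at k1
  linarith only [hlaw, hCst, hCst0, k1, hA2, hτη, hD2, h2]

end Main

end Pool.K3
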