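import Pool.Agent.H5.K3.BoxX

/-!
# Lower triangular boxes contain lines of directions
-/

set_option autoImplicit false

namespace Pool.K3

open Finset Real
open Pool.Agent.H49.Ent Pool.Agent.H32.Dense Pool.STK Pool.KA Pool.KSAT Pool.KS6 Pool.K2S

/-- Solving a lower triangular system in terms of the first coordinate. -/
theorem tri_solve {n : ℕ} (M : Fin (n + 1) → Fin (n + 1) → ℝ) {c : ℝ} (hc : 0 ≤ c)
    (hM : ∀ i j, |M i j| ≤ c) :
    ∃ E : Fin (n + 1) → ℝ, E 0 = 1 ∧ ∀ (Δ : Fin (n + 1) → ℝ) (δ : ℝ), 0 ≤ δ →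
      (∀ i, i ≠ 0 → |Δ i + ∑ j, (if j < i then M i j * Δ j else 0)| ≤ δ) →
      ∀ i, |Δ i - E i * Δ 0| ≤ (1 + (n + 1) * c) ^ (n + 1) * δ := by
  classical
  have hK : (1 : ℝ) ≤ 1 + (n + 1) * c := by
    have : 0 ≤ ((n : ℝ) + 1) * c := by positivity
    linarith
  have key : ∀ r : ℕ, ∃ E : Fin (n + 1) → ℝ, E 0 = 1 ∧ ∀ (Δ : Fin (n + 1) → ℝ) (δ : ℝ), 0 ≤ δ →
      (∀ i, i ≠ 0 → |Δ i + ∑ j, (if j < i then M i j * Δ j else 0)| ≤ δ) →
      ∀ i : Fin (n + 1), (i : ℕ) ≤ r → |Δ i - E i * Δ 0| ≤ (1 + (n + 1) * c) ^ (i : ℕ) * δ := by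
    intro r
    induction r with
    | zero =>
      refine ⟨fun _ => 1, rfl, fun Δ δ hδ _ i hi => ?_⟩
      have : i = 0 := Fin.ext (by simpa using hi)
      rw [this]
      simpa using hδ
    | succ r ih =>
      obtain ⟨E, hE0, hE⟩ := ih
      by_cases hr : r + 1 < n + 1
      · obtain ⟨i₁, hi₁⟩ : ∃ i₁ : Fin (n + 1), i₁ = ⟨r + 1, hr⟩ := ⟨_, rfl⟩
        have hi₁0 : i₁ ≠ 0 := by
          rw [hi₁]
          intro h
          have := congrArg Fin.val h
          simp at this
        refine ⟨Function.update E i₁ (-∑ j, (if j < i₁ then M i₁ j * E j else 0)), ?_, ?_⟩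
        · rw [Function.update_of_ne (Ne.symm hi₁0)]
          exact hE0
        · intro Δ δ hδ hΔ i hi
          by_cases hii : i = i₁
          · rw [hii, Function.update_self]
            have h1 := hΔ i₁ hi₁0
            have h2 : Δ i₁ - -(∑ j, (if j < i₁ then M i₁ j * E j else 0)) * Δ 0 =
                (Δ i₁ + ∑ j, (if j < i₁ then M i₁ j * Δ j else 0)) -
                ∑ j, (if j < i₁ then M i₁ j * (Δ j - E j * Δ 0) else 0) := by
              have h3 : ∑ j, (if j < i₁ then M i₁ j * (Δ j - E j * Δ 0) else 0) =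
                  ∑ j, (if j < i₁ then M i₁ j * Δ j else 0) -
                  (∑ j, (if j < i₁ then M i₁ j * E j else 0)) * Δ 0 := by
                rw [Finset.sum_mul, ← Finset.sum_sub_distrib]
                refine Finset.sum_congr rfl fun j _ => ?_
                split_ifs
                · ring
                · ring
              rw [h3]
              ring
            rw [h2]
            refine (abs_sub _ _).trans ?_
            have h4 : |∑ j, (if j < i₁ then M i₁ j * (Δ j - E j * Δ 0) else 0)| ≤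
                (n + 1) * (c * ((1 + (n + 1) * c) ^ r * δ)) := by
              refine (Finset.abs_sum_le_sum_abs _ _).trans ?_
              have h5 : ∀ j ∈ Finset.univ, |(if j < i₁ then M i₁ j * (Δ j - E j * Δ 0) else 0)| ≤
                  c * ((1 + (n + 1) * c) ^ r * δ) := by
                intro j _
                split_ifs with hj
                · rw [abs_mul]
                  have hjr : (j : ℕ) ≤ r := by
                    have : (j : ℕ) < i₁ := hj
                    rw [hi₁] at this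
                    simpa [Nat.lt_succ_iff] using this
                  have h6 := hE Δ δ hδ hΔ j hjr
                  have h7 : (1 + (n + 1) * c) ^ (j : ℕ) * δ ≤ (1 + (n + 1) * c) ^ r * δ :=
                    mul_le_mul_of_nonneg_right (pow_le_pow_right₀ hK hjr) hδ
                  exact mul_le_mul (hM i₁ j) (h6.trans h7) (abs_nonneg _) hc
                · rw [abs_zero]
                  positivity
              refine (Finset.sum_le_sum h5).trans (le_of_eq ?_)
              simp
            have h8 : ((i₁ : Fin (n + 1)) : ℕ) = r + 1 := by rw [hi₁]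
            rw [h8, pow_succ]
            have h9 : δ ≤ (1 + (n + 1) * c) ^ r * δ := by
              have : (1 : ℝ) ≤ (1 + (n + 1) * c) ^ r := one_le_pow₀ hK
              nlinarith
            calc |Δ i₁ + ∑ j, (if j < i₁ then M i₁ j * Δ j else 0)| +
                |∑ j, (if j < i₁ then M i₁ j * (Δ j - E j * Δ 0) else 0)| ≤
                (1 + (n + 1) * c) ^ r * δ + (n + 1) * (c * ((1 + (n + 1) * c) ^ r * δ)) :=
                  add_le_add (h1.trans h9) h4
              _ = (1 + (n + 1) * c) ^ r * (1 + (n + 1) * c) * δ := by ring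
          · rw [Function.update_of_ne hii]
            refine hE Δ δ hδ hΔ i ?_
            have : (i : ℕ) ≠ r + 1 := by
              intro h
              exact hii (by rw [hi₁]; exact Fin.ext h)
            omega
      · refine ⟨E, hE0, fun Δ δ hδ hΔ i _ => hE Δ δ hδ hΔ i ?_⟩
        have := i.2
        omega
  obtain ⟨E, hE0, hE⟩ := key (n + 1)
  refine ⟨E, hE0, fun Δ δ hδ hΔ i => (hE Δ δ hδ hΔ i (by have := i.2; omega)).trans ?_⟩
  exact mul_le_mul_of_nonneg_right (pow_le_pow_right₀ hK (by have := i.2; omega)) hδ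

/-- A box contains a line of directions. -/
theorem BoxL.lin {n : ℕ} {Ω S : Type} {x d : Ω → Fin (n + 1) → ℝ} {A : Ω → Prop} {z : Ω → S}
    {σ : Fin (n + 1) → Fin (n + 1)} (hσ : Function.Bijective σ) {k : Fin (n + 1) → ℕ}
    {w p : ℕ} {c : ℝ} (hc : 1 ≤ c) (h : BoxL x d A z σ k w c) (hp : ∀ i, i ≠ 0 → p ≤ k i) :
    ∃ e xb db : S → Fin (n + 1) → ℝ,
      LinL x d A z (σ 0) e xb db p w ((1 + (n + 1) * c) ^ (n + 1) * c) := by
  classical
  obtain ⟨M, xb, db, hMc, hbox⟩ := h
  choose E hE0 hE using fun s => tri_solve (M s) (by linarith : (0 : ℝ) ≤ c) (hMc s)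
  obtain ⟨τ, hτl, hτr⟩ := Function.bijective_iff_has_inverse.1 hσ
  have hK : (1 : ℝ) ≤ (1 + (n + 1) * c) ^ (n + 1) := by
    refine one_le_pow₀ ?_
    have : 0 ≤ ((n : ℝ) + 1) * c := by positivity
    linarith
  refine ⟨fun s j => E s (τ j), fun s j => xb s (τ j), fun s j => db s (τ j), fun ω hω => ?_⟩
  have hle : ∀ i : Fin (n + 1), i ≠ 0 → c / 2 ^ k i ≤ c / 2 ^ p := by
    intro i hi
    exact div_le_div_of_nonneg_left (by linarith) (by positivity)
      (pow_le_pow_right₀ (by norm_num) (hp i hi))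
  have hle' : ∀ i : Fin (n + 1), i ≠ 0 → c * 2 ^ w / 2 ^ k i ≤ c * 2 ^ w / 2 ^ p := by
    intro i hi
    exact div_le_div_of_nonneg_left (by positivity) (by positivity)
      (pow_le_pow_right₀ (by norm_num) (hp i hi))
  refine ⟨?_, fun j => ?_⟩
  · have h1 := (hbox ω hω 0).1
    have h2 : ∑ j : Fin (n + 1), (if j < 0 then M (z ω) 0 j * (x ω (σ j) - xb (z ω) j) else 0) =
        0 := Finset.sum_eq_zero fun j _ => by
      rw [if_neg (by simp)]
    rw [h2, add_zero] at h1
    have h4 : τ (σ 0) = 0 := hτl 0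
    dsimp only
    rw [h4]
    refine h1.trans ?_
    have h3 : c / 2 ^ k 0 ≤ c := div_le_self (by linarith) (one_le_pow₀ (by norm_num))
    nlinarith
  · obtain ⟨i, rfl⟩ := hσ.2 j
    have h4 : τ (σ 0) = 0 := hτl 0
    have h5 : τ (σ i) = i := hτl i
    dsimp only
    rw [h4, h5]
    constructor
    · have h1 := hE (z ω) (fun i => x ω (σ i) - xb (z ω) i) (c / 2 ^ p) (by positivity)
        (fun i hi => (hbox ω hω i).1.trans (hle i hi)) i
      refine h1.trans (le_of_eq ?_)
      ring
    · have h1 := hE (z ω) (fun i => d ω (σ i) - db (z ω) i) (c * 2 ^ w / 2 ^ p) (by positivity)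
        (fun i hi => (hbox ω hω i).2.trans (hle' i hi)) i
      refine h1.trans (le_of_eq ?_)
      ring

/-- The line of directions of the label. -/
theorem LinL.lineU {m : ℕ} {Ω S : Type} {x d : Ω → Fin m → ℝ} {A : Ω → Prop} {z : Ω → S}
    {i₀ : Fin m} {e xb db : S → Fin m → ℝ} {p w : ℕ} {c r : ℝ}
    (h : LinL x d A z i₀ e xb db p w c) (hr : c * 2 ^ w / 2 ^ p ≤ r) : LineU i₀ r z d A := by
  refine ⟨e, fun s j => db s j - e s j * db s i₀, fun ω hω j => ?_⟩
  have h1 := ((h ω hω).2 j).2
  have e1 : d ω j - e (z ω) j * d ω i₀ - (db (z ω) j - e (z ω) j * db (z ω) i₀) =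
      (d ω j - db (z ω) j) - e (z ω) j * (d ω i₀ - db (z ω) i₀) := by ring
  rw [e1]
  exact h1.trans hr

end Pool.K3
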