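import Pool.Agent.H5.K3.LabQ

/-!
# Lemma X with a top row
-/

set_option autoImplicit false

namespace Pool.K3

open Finset Real
open Pool.Agent.H49.Ent Pool.Agent.H32.Dense Pool.STK Pool.KA Pool.KSAT Pool.KS6 Pool.K2S

/-- **Lemma X (claim).** Scales are multiples of `J / N`: `v` is the window of the label `z`, `p` the
precision of its position transversal to the direction, `v - y` the longer window of the label
`zb`. If the direction is not known from the windows `v - y` to precision `l`, the position given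
`zb` has at least the entropy of the position given `z` plus that of the longitudinal digits up to
`B = p - l - y` given both labels. -/
def LXQStmt : Prop :=
  ∀ (m : ℕ) (a R : ℝ), 1 ≤ a → 0 < R → ∀ η c : ℝ, 0 < η → 1 ≤ c →
    ∀ (N : ℕ) (i₀ : Fin m) (p v l y B : ℕ), 0 < N → y ≤ v → v ≤ N → l + v < p → B + l + y ≤ p →
    ∀ Q : ℕ → ℕ, (∀ J, Q J ≤ J) →
    Claim (m := m) a R (fun J F A => ¬ RotU i₀ (1 / 2 ^ (l * (J / N))) (1 / 2 ^ (l * (J / N)))
        (ptm F (Q J)) (slam F ((v - y) * (J / N))) F.d A →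
      ∀ (S : Type) (z : F.Ω → S) (e xb db : S → Fin m → ℝ),
      (∃ φ : (Fin m → ℤ) × (ℕ × F.ζ) → S, ∀ ω, A ω → z ω = φ (ptm F (Q J) ω)) →
      LinL F.x F.d A z i₀ e xb db (p * (J / N)) (v * (J / N)) c →
      ∀ (S' : Type) (zb : F.Ω → S'),
      (∃ ψ : ((Fin m → ℝ) × (Fin m → ℝ)) × F.ζ × ℕ → S',
        ∀ ω, A ω → zb ω = ψ (slam F ((v - y) * (J / N)) ω)) →
      ∀ P : ℕ, B * (J / N) ≤ P → P ≤ J →
      CH (Pool.Agent.H49.Ent.cond F.p A True) (fun ω => F.X (B * (J / N)) ω i₀)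
          (fun ω => (z ω, zb ω, F.W ω)) +
        CH (Pool.Agent.H49.Ent.cond F.p A True) (F.X P) (fun ω => (z ω, F.W ω)) ≤
      CH (Pool.Agent.H49.Ent.cond F.p A True) (F.X P) (fun ω => (zb ω, F.W ω)) +
        CH (Pool.Agent.H49.Ent.cond F.p A True) zb (fun ω => (z ω, F.W ω)) +
        2 * CH (Pool.Agent.H49.Ent.cond F.p A True) z (fun ω => (F.X P ω, F.W ω)) + η * J)

theorem lxq_thm : LXQStmt := by
  classical
  intro m a R ha hR η c hη hc N i₀ p v l y B hN0 hyv hvN hlv hB Q hQJ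
  have hNr : (0 : ℝ) < N := by exact_mod_cast hN0
  refine Claim.one ⟨1, fun J F _ =>
    RotU i₀ (1 / 2 ^ (l * (J / N))) (1 / 2 ^ (l * (J / N))) (ptm F (Q J))
      (slam F ((v - y) * (J / N))) F.d, fun J F i => RotU.hered _ _ _ _ _ _⟩ fun κ hκ => ?_
  obtain ⟨τ', hτ'⟩ : ∃ τ', τ' = η / 8 := ⟨_, rfl⟩
  have hτ'0 : 0 < τ' := by rw [hτ']; positivity
  obtain ⟨τ, hτ⟩ : ∃ τ, τ = τ' / (6 * (1 + a)) := ⟨_, rfl⟩
  have hτ0 : 0 < τ := by rw [hτ]; positivity
  obtain ⟨Cst, hCst⟩ : ∃ Cst : ℝ, Cst = 2 * Real.log 5 + (Real.log 2 +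
    (Real.log (2 * (6 * c + 1) + 1) + (1 / κ + Real.log (4 * c + 3)))) := ⟨_, rfl⟩
  have hl5 : 0 ≤ Real.log 5 := Real.log_nonneg (by norm_num)
  have hl2 : 0 ≤ Real.log 2 := Real.log_nonneg (by norm_num)
  have hlc1 : 0 ≤ Real.log (2 * (6 * c + 1) + 1) := Real.log_nonneg (by linarith)
  have hlc2 : 0 ≤ Real.log (4 * c + 3) := Real.log_nonneg (by linarith)
  have hCst0 : 0 ≤ Cst := by
    rw [hCst]
    positivity
  obtain ⟨u₀, hu₀⟩ : ∃ u₀ : ℕ, c < 2 ^ u₀ := pow_unbounded_of_one_lt c (by norm_num)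
  obtain ⟨J₁, hJ₁⟩ := exists_nat_gt (Cst / (η / 4) + N * (u₀ + 1))
  refine ⟨τ, hτ0, J₁, ?_⟩
  intro J hJ F A hS hSb hn S z e xb db hz hlin S' zb hzb P hBP hPJ
  have hJr : Cst / (η / 4) + N * (u₀ + 1) < J := hJ₁.trans_le (by exact_mod_cast hJ)
  have t1 : 0 ≤ Cst / (η / 4) := by positivity
  have t2 : (0 : ℝ) ≤ N * (u₀ + 1) := by positivity
  have hJ0 : (0 : ℝ) < J := by linarith
  have k1 : Cst < η / 4 * J := by
    have : Cst / (η / 4) < J := by linarith
    rw [div_lt_iff₀ (by positivity)] at this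
    linarith
  obtain ⟨hTr, hMx, hRb, hPA⟩ := hS
  have hp := F.isLaw
  have hA0 : 0 < Pe F.p A := lt_of_lt_of_le (Real.exp_pos _) hPA
  obtain ⟨hlaw, -, hMx', -⟩ := max_res F ha hτ0.le hτ0.le hTr hMx hRb A hPA
  have e7 : (1 + a) * (5 * τ + τ) = τ' := by
    rw [hτ]
    field_simp
    ring
  rw [e7] at hMx'
  have hA' : ∀ ω, 0 < (F.res A True hlaw).p ω → A ω := fun ω hω => by
    have := ((cond_pos_iff hp.nonneg A True ω).1 hω).2
    simpa using this
  obtain ⟨u, hu⟩ : ∃ u, u = J / N := ⟨_, rfl⟩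
  have hs0 := hSb 0
  simp only [← hu] at hs0
  rw [← hu] at hn hlin hzb hBP ⊢
  have hu1 : N * u ≤ J := by rw [hu]; exact Nat.mul_div_le J N
  have hu2 : (J : ℝ) < N * (u + 1) := by
    have := Nat.lt_mul_div_succ J hN0
    rw [← hu] at this
    exact_mod_cast this
  have hu3 : u₀ ≤ u := by
    have h1 : (N : ℝ) * (u₀ + 1) < N * (u + 1) := by linarith
    have h2 := lt_of_mul_lt_mul_left h1 hNr.le
    have h3 : (u₀ : ℝ) < u := by linarith
    exact le_of_lt (by exact_mod_cast h3)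
  have hvu : v * u ≤ J := by
    have : v * u ≤ N * u := Nat.mul_le_mul_right u hvN
    omega
  have hyu : y * u ≤ v * u := Nat.mul_le_mul_right u hyv
  have hsub : v * u - y * u = (v - y) * u := (Nat.sub_mul v y u).symm
  -- the frames
  obtain ⟨φ, hφ⟩ := hz
  have hprec : c * 2 ^ (v * u) / 2 ^ (p * u) ≤ (1 : ℝ) / 2 ^ (l * u) := by
    have h1 : (c : ℝ) ≤ 2 ^ u := by
      have h2 : (2 : ℝ) ^ u₀ ≤ 2 ^ u := pow_le_pow_right₀ (by norm_num) hu3
      linarith
    rw [div_le_div_iff₀ (by positivity) (by positivity), one_mul]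
    calc c * 2 ^ (v * u) * 2 ^ (l * u) ≤ 2 ^ u * 2 ^ (v * u) * 2 ^ (l * u) := by
          have h3 : (0 : ℝ) < 2 ^ (v * u) * 2 ^ (l * u) := by positivity
          nlinarith
      _ = 2 ^ ((l + v + 1) * u) := by
          rw [← pow_add, ← pow_add]; congr 1; ring
      _ ≤ 2 ^ (p * u) := pow_le_pow_right₀ (by norm_num) (Nat.mul_le_mul_right u hlv)
  have hon : OnL i₀ (1 / 2 ^ (l * u)) (ptm F (Q J)) F.d A (fun q => e (φ q))
      (fun q j => db (φ q) j - e (φ q) j * db (φ q) i₀) := by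
    intro ω hω j
    have h1 := ((hlin ω hω).2 j).2
    rw [hφ ω hω] at h1
    have e1 : F.d ω j - e (φ (ptm F (Q J) ω)) j * F.d ω i₀ -
        (db (φ (ptm F (Q J) ω)) j - e (φ (ptm F (Q J) ω)) j * db (φ (ptm F (Q J) ω)) i₀) =
        (F.d ω j - db (φ (ptm F (Q J) ω)) j) - e (φ (ptm F (Q J) ω)) j *
          (F.d ω i₀ - db (φ (ptm F (Q J) ω)) i₀) := by ring
    rw [e1]
    exact h1.trans hprec
  have hbad : Pe (prs (F.res A True hlaw) (v * u - y * u))
      (fun w => ∀ j, |e (z w.1) j - e (z w.2) j| ≤ 1 / 2 ^ (l * u)) ≤ Real.exp (-(κ * J)) := by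
    have h1 : Pe (prs (F.res A True hlaw) ((v - y) * u)) (fun w => ∀ j,
        |e (φ (ptm F (Q J) w.1)) j - e (φ (ptm F (Q J) w.2)) j| ≤ 1 / 2 ^ (l * u)) <
        Real.exp (-(κ * J)) :=
      hs0.rotU_cpy_lt hp hA0 hn hon (wn' := slam F ((v - y) * u)) (φ := id) (fun _ => rfl)
    rw [hsub]
    refine le_trans (Pe_le_pos (prs_law _ _) fun w hw hB j => ?_) h1.le
    obtain ⟨a1, a2, -⟩ := prs_pos hw
    have e1 : z w.1 = φ (ptm F (Q J) w.1) := hφ _ (hA' _ a1)
    have e2 : z w.2 = φ (ptm F (Q J) w.2) := hφ _ (hA' _ a2)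
    rw [← e1, ← e2]
    exact hB j
  have hX := boxX (F.res A True hlaw) (w := v * u) (y := y * u) (l := l * u) (p := p * u)
    (B := B * u) (P := P) (i₀ := i₀) (z := z) (zb := zb) (e := e) (xb := xb) (db := db) (c := c)
    (ε := Real.exp (-(κ * J))) (τ := τ' * J) hc hyu hvu
    (fun ω hω => hlin ω (hA' ω hω)) hbad (by
      have := Nat.mul_le_mul_right u hB
      rw [add_mul, add_mul] at this
      exact this) hBP hMx'.1 (by
      obtain ⟨ψ, hψ⟩ := hzb
      rw [hsub]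
      intro ω ω' hω hω' h
      rw [hψ ω (hA' ω hω), hψ ω' (hA' ω' hω')]
      have h2 : slam F ((v - y) * u) ω = slam F ((v - y) * u) ω' := h
      rw [h2])
  have hlog : Real.exp (-(κ * J)) * Real.log (2 * (2 * c * 2 ^ (B * u) + 1) + 1) ≤
      1 / κ + Real.log (4 * c + 3) := by
    have hBJ : ((B * u : ℕ) : ℝ) ≤ J := by exact_mod_cast hBP.trans hPJ
    have h1 : Real.log (2 * (2 * c * 2 ^ (B * u) + 1) + 1) ≤ J + Real.log (4 * c + 3) := by
      have h2 : (2 * (2 * c * 2 ^ (B * u) + 1) + 1 : ℝ) ≤ 2 ^ (B * u) * (4 * c + 3) := by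
        have : (1 : ℝ) ≤ 2 ^ (B * u) := one_le_pow₀ (by norm_num)
        nlinarith
      have h3 := Real.log_le_log (by positivity) h2
      rw [Real.log_mul (by positivity) (by positivity), Real.log_pow] at h3
      have h4 : ((B * u : ℕ) : ℝ) * Real.log 2 ≤ J * 1 := by
        refine mul_le_mul hBJ ?_ hl2 hJ0.le
        have := Real.log_two_lt_d9
        linarith
      linarith
    have h3 := exp_mul_le (J := (J : ℝ)) hκ
    have h4 : Real.exp (-(κ * J)) ≤ 1 := by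
      rw [Real.exp_le_one_iff]
      have : 0 < κ * J := by positivity
      linarith
    calc _ ≤ Real.exp (-(κ * J)) * (J + Real.log (4 * c + 3)) :=
          mul_le_mul_of_nonneg_left h1 (Real.exp_pos _).le
      _ = Real.exp (-(κ * J)) * J + Real.exp (-(κ * J)) * Real.log (4 * c + 3) := by ring
      _ ≤ 1 / κ + 1 * Real.log (4 * c + 3) :=
          add_le_add h3 (mul_le_mul_of_nonneg_right h4 hlc2)
      _ = _ := by ring
  have hX' : CH (Pool.Agent.H49.Ent.cond F.p A True) (fun ω => F.X (B * u) ω i₀)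
          (fun ω => (z ω, zb ω, F.W ω)) +
        CH (Pool.Agent.H49.Ent.cond F.p A True) (F.X P) (fun ω => (z ω, F.W ω)) ≤
      CH (Pool.Agent.H49.Ent.cond F.p A True) (F.X P) (fun ω => (zb ω, F.W ω)) +
        CH (Pool.Agent.H49.Ent.cond F.p A True) zb (fun ω => (z ω, F.W ω)) +
        2 * CH (Pool.Agent.H49.Ent.cond F.p A True) z (fun ω => (F.X P ω, F.W ω)) +
        2 * (τ' * J + Real.log 5) +
      (Real.log 2 + (Real.log (2 * (6 * c + 1) + 1) +
        Real.exp (-(κ * J)) * Real.log (2 * (2 * c * 2 ^ (B * u) + 1) + 1))) := hX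
  have h3 : τ' * J = η / 8 * J := by rw [hτ']
  have h4 : 0 < η * J := by positivity
  rw [h3] at hX'
  rw [hCst] at k1
  linarith

end Pool.K3
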